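import Pool.Agent.WRT.Cut
import Pool.Agent.WRL.UpperN

set_option autoImplicit false

/-!
# Branching programs as programs without forks
-/

namespace Pool.Agent.WRT

open Module
open Pool.Agent.WRL (Prog CoeffZero)

variable {E : Type} [AddCommGroup E] [Module (ZMod 2) E]

/-- A branching program is a fork program without forks. -/
def ofProg (P : Prog E) : FProg E where
  V := P.V
  fin := P.fin
  start := P.start
  final := fun v => v = P.acc
  edge := P.edge
  fork := fun _ _ _ => False

variable (P : Prog E)

lemma der_reach {u : (ofProg P).V} {l : List (Dual (ZMod 2) E × ZMod 2)} (h : (ofProg P).Der u l) :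
    P.Reach u P.acc := by
  induction h with
  | final h =>
    have : _ = P.acc := h
    rw [this]
    exact Relation.ReflTransGen.refl
  | edge he _ ih => exact Relation.ReflTransGen.head ⟨_, he⟩ ih
  | fork hf => exact absurd hf not_false

lemma der_forms {u : (ofProg P).V} {l : List (Dual (ZMod 2) E × ZMod 2)} (h : (ofProg P).Der u l) :
    ∀ p ∈ l, ∃ u' w b, P.Reach u u' ∧ P.edge u' w (some (p.1, b)) ∧ P.Reach w P.acc := by
  induction h with
  | final h => exact fun p hp => by simp at hp
  | @edge u w lab l he hw ih =>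
    intro p hp
    rcases List.mem_append.1 hp with hp | hp
    · rw [Option.mem_toList] at hp
      subst hp
      exact ⟨u, w, p.2, Relation.ReflTransGen.refl, he, der_reach P hw⟩
    · obtain ⟨u', w', b, h1, h2, h3⟩ := ih p hp
      exact ⟨u', w', b, Relation.ReflTransGen.head ⟨_, he⟩ h1, h2, h3⟩
  | fork hf => exact absurd hf not_false

lemma post_le (u : P.V) : (ofProg P).Post u ≤ P.Post u := by
  apply Submodule.span_le.2
  rintro φ ⟨l, hl, b, hb⟩
  exact Submodule.subset_span (der_forms P hl _ hb)

lemma ctx_reach {u : (ofProg P).V} {l : List (Dual (ZMod 2) E × ZMod 2)} (h : (ofProg P).Ctx u l) :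
    P.Reach P.start u := by
  induction h with
  | start => exact Relation.ReflTransGen.refl
  | edge _ he ih => exact ih.tail ⟨_, he⟩
  | left _ hf => exact absurd hf not_false
  | right _ hf => exact absurd hf not_false

lemma ctx_forms {u : (ofProg P).V} {l : List (Dual (ZMod 2) E × ZMod 2)} (h : (ofProg P).Ctx u l) :
    ∀ p ∈ l, ∃ u' w b, P.Reach P.start u' ∧ P.edge u' w (some (p.1, b)) ∧ P.Reach w u := by
  induction h with
  | start => exact fun p hp => by simp at hp
  | @edge u w lab l hu he ih =>
    intro p hp
    rcases List.mem_append.1 hp with hp | hp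
    · rw [Option.mem_toList] at hp
      subst hp
      exact ⟨u, w, p.2, ctx_reach P hu, he, Relation.ReflTransGen.refl⟩
    · obtain ⟨u', w', b, h1, h2, h3⟩ := ih p hp
      exact ⟨u', w', b, h1, h2, h3.tail ⟨_, he⟩⟩
  | left _ hf => exact absurd hf not_false
  | right _ hf => exact absurd hf not_false

lemma pre_le (u : P.V) : (ofProg P).Pre u ≤ P.Pre u := by
  apply Submodule.span_le.2
  rintro φ ⟨l, hl, b, hb⟩
  exact Submodule.subset_span (ctx_forms P hl _ hb)

lemma acc_iff (x : E) : (ofProg P).Acc x ↔ P.Acc x := by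
  constructor
  · rintro ⟨l, hl, hx⟩
    have key : ∀ (u : (ofProg P).V) (l : List (Dual (ZMod 2) E × ZMod 2)), (ofProg P).Der u l →
        Passes x l → P.Run x u P.acc := by
      intro u l hl
      induction hl with
      | final h =>
        intro _
        have : _ = P.acc := h
        rw [this]
        exact Relation.ReflTransGen.refl
      | edge he _ ih =>
        intro hx
        obtain ⟨h1, h2⟩ := passes_append.1 hx
        exact Relation.ReflTransGen.head ⟨_, he, passes_toList.1 h1⟩ (ih h2)
      | fork hf => exact absurd hf not_false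
    exact key _ _ hl hx
  · intro h
    have key : ∀ u : P.V, P.Run x u P.acc → ∃ l, (ofProg P).Der u l ∧ Passes x l := by
      intro u hu
      induction hu using Relation.ReflTransGen.head_induction_on with
      | refl => exact ⟨[], FProg.Der.final (P := ofProg P) rfl, fun p hp => by simp at hp⟩
      | head h1 _ ih =>
        obtain ⟨lab, he, ht⟩ := h1
        obtain ⟨l, hl, hx⟩ := ih
        exact ⟨_, FProg.Der.edge (P := ofProg P) he hl,
          passes_append.2 ⟨passes_toList.2 ht, hx⟩⟩
    exact key _ h

/-- The upper bound for the complement. -/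
theorem exists_upper (t m : ℕ) (hm : 0 < m) :
    ∃ P : FProg (Fin (t + m) ⊕ Fin (t + m) → ZMod 2), P.size ≤ 4 * m * (t + m + 1) + 2 ∧
      P.Ordinary ∧ P.ReadOnce ∧ P.Decomposable ∧ ∀ z, P.Acc z ↔ ¬ CoeffZero t m z := by
  obtain ⟨P, h1, h2, h3, h4, h5⟩ := Pool.Agent.WRL.UN.exists_upper t m hm
  refine ⟨ofProg P, h1, ⟨fun _ _ _ h => h, h2⟩, ?_, ⟨?_, fun _ _ _ h => absurd h not_false⟩,
    fun z => (acc_iff P z).trans (h5 z)⟩
  · rintro u w l b ⟨c, hc⟩ he h
    exact h3 u w l b (ctx_reach P hc) he (pre_le P u h)
  · rintro u w l b he ⟨c, hc⟩ h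
    exact h4 u w l b he (der_reach P hc) (post_le P w h)

end Pool.Agent.WRT
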