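import Pool.Agent.WRT.Defs

set_option autoImplicit false

/-!
# The cut of an accepting proof tree with few redundant tests
-/

namespace Pool.Agent.WRT

open Module

variable {E : Type} [AddCommGroup E] [Module (ZMod 2) E]

lemma passes_append {x : E} {l l' : List (Dual (ZMod 2) E × ZMod 2)} :
    Passes x (l ++ l') ↔ Passes x l ∧ Passes x l' := by
  unfold Passes
  constructor
  · intro h
    exact ⟨fun p hp => h p (List.mem_append_left _ hp), fun p hp => h p (List.mem_append_right _ hp)⟩
  · rintro ⟨h1, h2⟩ p hp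
    rcases List.mem_append.1 hp with h | h
    · exact h1 p h
    · exact h2 p h

lemma passes_toList {x : E} {lab : Option (Dual (ZMod 2) E × ZMod 2)} :
    Passes x lab.toList ↔ ∀ t, lab = some t → t.1 x = t.2 := by
  cases lab with
  | none => simp [Passes]
  | some t =>
    simp only [Passes, Option.toList_some, List.mem_singleton, Option.some.injEq]
    constructor
    · intro h s hs
      exact h s hs.symm
    · intro h s hs
      exact h s hs.symm

lemma forms_mono {l l' : List (Dual (ZMod 2) E × ZMod 2)} (h : ∀ p ∈ l, p ∈ l') :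
    forms l ≤ forms l' := by
  apply Submodule.span_mono
  rintro φ ⟨b, hb⟩
  exact ⟨b, h _ hb⟩

lemma mem_forms {l : List (Dual (ZMod 2) E × ZMod 2)} {p : Dual (ZMod 2) E × ZMod 2} (h : p ∈ l) :
    p.1 ∈ forms l := Submodule.subset_span ⟨p.2, h⟩

namespace FProg

variable (P : FProg E)

lemma forms_le_pre {v : P.V} {l : List (Dual (ZMod 2) E × ZMod 2)} (h : P.Ctx v l) :
    forms l ≤ P.Pre v := by
  apply Submodule.span_mono
  rintro φ ⟨b, hb⟩
  exact ⟨l, h, b, hb⟩

lemma pre_edge {u w : P.V} {lab : Option (Dual (ZMod 2) E × ZMod 2)} (h : P.edge u w lab) :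
    P.Pre u ≤ P.Pre w := by
  apply Submodule.span_mono
  rintro φ ⟨l, hl, b, hb⟩
  exact ⟨_, hl.edge h, b, List.mem_append_right _ hb⟩

lemma pre_left {u v w : P.V} {l' : List (Dual (ZMod 2) E × ZMod 2)} (h : P.fork u v w)
    (hd : P.Der w l') : P.Pre u ≤ P.Pre v := by
  apply Submodule.span_mono
  rintro φ ⟨l, hl, b, hb⟩
  exact ⟨_, hl.left h hd, b, List.mem_append_right _ hb⟩

lemma pre_right {u v w : P.V} {l' : List (Dual (ZMod 2) E × ZMod 2)} (h : P.fork u v w)
    (hd : P.Der v l') : P.Pre u ≤ P.Pre w := by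
  apply Submodule.span_mono
  rintro φ ⟨l, hl, b, hb⟩
  exact ⟨_, hl.right h hd, b, List.mem_append_right _ hb⟩

/-- An input which agrees with `x` on the forms tested outside `v` passes the tests of each context
which `x` passes. -/
lemma ctx_transfer {v : P.V} {l : List (Dual (ZMod 2) E × ZMod 2)} (h : P.Ctx v l) {x y : E}
    (hx : Passes x l) (hxy : ∀ φ ∈ P.Pre v, φ y = φ x) : Passes y l := by
  intro p hp
  rw [hxy p.1 (P.forms_le_pre h (mem_forms hp))]
  exact hx p hp

/-- A context of `v` and a proof tree from `v` make a proof tree from the start. -/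
lemma ctx_plug {v : P.V} {l : List (Dual (ZMod 2) E × ZMod 2)} (h : P.Ctx v l) :
    ∀ l', P.Der v l' → ∃ l'', P.Der P.start l'' ∧ ∀ p ∈ l'', p ∈ l ∨ p ∈ l' := by
  induction h with
  | start => exact fun l' h' => ⟨l', h', fun p hp => Or.inr hp⟩
  | @edge u w lab l _ he ih =>
    intro l' h'
    obtain ⟨l'', h1, h2⟩ := ih _ (Der.edge he h')
    refine ⟨l'', h1, fun p hp => ?_⟩
    rcases h2 p hp with h3 | h3
    · exact Or.inl (List.mem_append_right _ h3)
    · rcases List.mem_append.1 h3 with h4 | h4
      · exact Or.inl (List.mem_append_left _ h4)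
      · exact Or.inr h4
  | @left u v w l l₂ _ hf hd ih =>
    intro l' h'
    obtain ⟨l'', h1, h2⟩ := ih _ (Der.fork hf h' hd)
    refine ⟨l'', h1, fun p hp => ?_⟩
    rcases h2 p hp with h3 | h3
    · exact Or.inl (List.mem_append_right _ h3)
    · rcases List.mem_append.1 h3 with h4 | h4
      · exact Or.inr h4
      · exact Or.inl (List.mem_append_left _ h4)
  | @right u v w l l₂ _ hf hd ih =>
    intro l' h'
    obtain ⟨l'', h1, h2⟩ := ih _ (Der.fork hf hd h')
    refine ⟨l'', h1, fun p hp => ?_⟩
    rcases h2 p hp with h3 | h3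
    · exact Or.inl (List.mem_append_right _ h3)
    · rcases List.mem_append.1 h3 with h4 | h4
      · exact Or.inl (List.mem_append_left _ h4)
      · exact Or.inr h4

lemma tree_der {x : E} {R : Submodule (ZMod 2) (Dual (ZMod 2) E)} {v : P.V}
    (h : P.TreeTop x R v) : ∃ l, P.Der v l ∧ Passes x l := by
  induction h with
  | final h => exact ⟨[], Der.final h, fun p hp => by simp at hp⟩
  | edge he ht _ ih =>
    obtain ⟨l, h1, h2⟩ := ih
    exact ⟨_, Der.edge he h1, passes_append.2 ⟨passes_toList.2 fun t h => (ht t h).1, h2⟩⟩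
  | fork hf _ _ ih1 ih2 =>
    obtain ⟨l, h1, h2⟩ := ih1
    obtain ⟨l', h3, h4⟩ := ih2
    exact ⟨_, Der.fork hf h1 h3, passes_append.2 ⟨h2, h4⟩⟩

lemma accTop_acc {k : ℕ} {x : E} (h : P.AccTop k x) : P.Acc x := by
  obtain ⟨R, _, h2⟩ := h
  exact P.tree_der h2

open Classical in
/-- The span of the forms tested outside the node `v`; nothing is tested outside the start node. -/
noncomputable def Pre0 (v : P.V) : Submodule (ZMod 2) (Dual (ZMod 2) E) :=
  if v = P.start then ⊥ else P.Pre v

lemma pre0_start : P.Pre0 P.start = ⊥ := by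
  rw [Pre0, if_pos rfl]

lemma pre0_le (v : P.V) : P.Pre0 v ≤ P.Pre v := by
  rw [Pre0]
  split_ifs
  · exact bot_le
  · exact le_refl _

lemma pre0_ne {v : P.V} (h : v ≠ P.start) : P.Pre0 v = P.Pre v := by
  rw [Pre0, if_neg h]

variable [FiniteDimensional (ZMod 2) E]

/-- The result of the cut. -/
def IsCut (x : E) (R : Submodule (ZMod 2) (Dual (ZMod 2) E)) (A : ℕ) (v : P.V)
    (G : Submodule (ZMod 2) (Dual (ZMod 2) E)) (a : ℕ) : Prop :=
  (∃ l, P.Ctx v l ∧ Passes x l) ∧ A ≤ a ∧ a ≤ 2 * A ∧
    finrank (ZMod 2) (P.Pre0 v) + a ≤ finrank (ZMod 2) E ∧ Disjoint (P.Pre0 v) G ∧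
    finrank (ZMod 2) G ≤ a ∧
    ∀ y : E, (∀ g ∈ G, g y = g x) → (∀ g ∈ R, g y = g x) → ∃ l, P.Der v l ∧ Passes y l

/-- The alternative: the subtree has few tests which are not redundant. -/
def IsSmall (x : E) (R : Submodule (ZMod 2) (Dual (ZMod 2) E)) (A : ℕ) (u : P.V) : Prop :=
  u ≠ P.start ∧ ∃ (G : Submodule (ZMod 2) (Dual (ZMod 2) E))
    (l : List (Dual (ZMod 2) E × ZMod 2)), P.Der u l ∧ G ≤ forms l ∧ Disjoint (P.Pre u) G ∧
      finrank (ZMod 2) G < A ∧
      ∀ y : E, (∀ g ∈ G, g y = g x) → (∀ g ∈ R, g y = g x) → ∃ l, P.Der u l ∧ Passes y l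

lemma finish {x : E} {R : Submodule (ZMod 2) (Dual (ZMod 2) E)} {A : ℕ} (u : P.V)
    (hAn : 2 * A ≤ finrank (ZMod 2) E)
    {c l : List (Dual (ZMod 2) E × ZMod 2)} (hc : P.Ctx u c) (hx : Passes x c)
    (G : Submodule (ZMod 2) (Dual (ZMod 2) E)) (hl : P.Der u l) (hG : G ≤ forms l)
    (hd : Disjoint (P.Pre0 u) G) (hf : finrank (ZMod 2) G ≤ 2 * A)
    (hy : ∀ y : E, (∀ g ∈ G, g y = g x) → (∀ g ∈ R, g y = g x) → ∃ l, P.Der u l ∧ Passes y l) :
    (∃ v G a, P.IsCut x R A v G a) ∨ P.IsSmall x R A u := by
  have hdim : finrank (ZMod 2) (Dual (ZMod 2) E) = finrank (ZMod 2) E :=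
    Subspace.dual_finrank_eq
  by_cases hu : u = P.start
  · left
    refine ⟨u, G, max A (finrank (ZMod 2) G), ⟨c, hc, hx⟩, le_max_left _ _, by omega, ?_, hd,
      le_max_right _ _, hy⟩
    rw [hu, P.pre0_start, finrank_bot]
    omega
  · by_cases hA : finrank (ZMod 2) G < A
    · right
      refine ⟨hu, G, l, hl, hG, ?_, hA, hy⟩
      rw [← P.pre0_ne hu]
      exact hd
    · left
      refine ⟨u, G, finrank (ZMod 2) G, ⟨c, hc, hx⟩, by omega, hf, ?_, hd, le_refl _, hy⟩
      have h1 := Submodule.finrank_add_finrank_le_of_disjoint hd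
      rw [hdim] at h1
      exact h1

/-- The cut: a node `v` of the accepting proof tree of `x` and the span `G` of the forms of the tests
in the subtree of `v` which are not redundant. -/
theorem cutT {x : E} {R : Submodule (ZMod 2) (Dual (ZMod 2) E)} {A : ℕ} (hA : 1 ≤ A)
    (hAn : 2 * A ≤ finrank (ZMod 2) E) (hx : P.TreeTop x R P.start) :
    ∃ v G a, P.IsCut x R A v G a := by
  have key : ∀ u : P.V, P.TreeTop x R u → ∀ c, P.Ctx u c → Passes x c →
      (∃ v G a, P.IsCut x R A v G a) ∨ P.IsSmall x R A u := by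
    intro u hu
    induction hu with
    | @final v h =>
      intro c hc hxc
      refine P.finish v hAn hc hxc ⊥ (Der.final h) bot_le disjoint_bot_right ?_
        fun y _ _ => ⟨[], Der.final h, fun p hp => by simp at hp⟩
      rw [finrank_bot]
      omega
    | @edge u w lab he ht _ ih =>
      intro c hc hxc
      rcases ih _ (hc.edge he) (passes_append.2 ⟨passes_toList.2 fun t h => (ht t h).1, hxc⟩) with
        h | ⟨hw, G, l, hl, hGl, hdis, hfin, hG⟩
      · exact Or.inl h
      · have hle : P.Pre0 u ≤ P.Pre w := (P.pre0_le u).trans (P.pre_edge he)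
        cases lab with
        | none =>
          refine P.finish u hAn hc hxc G (Der.edge he hl) (hGl.trans (forms_mono fun p hp => ?_))
            (hdis.mono_left hle) (by omega) fun y hy hy2 => ?_
          · exact List.mem_append_right _ hp
          · obtain ⟨l', h1, h2⟩ := hG y hy hy2
            exact ⟨_, Der.edge he h1, passes_append.2 ⟨passes_toList.2 fun t h => (by cases h), h2⟩⟩
        | some t =>
          obtain ⟨φ, b⟩ := t
          have hφx := (ht (φ, b) rfl).1
          by_cases hred : φ ∈ P.Pre u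
          · have hφR := (ht (φ, b) rfl).2 hred
            refine P.finish u hAn hc hxc G (Der.edge he hl) (hGl.trans (forms_mono fun p hp => ?_))
              (hdis.mono_left hle) (by omega) fun y hy hy2 => ?_
            · exact List.mem_append_right _ hp
            · obtain ⟨l', h1, h2⟩ := hG y hy hy2
              refine ⟨_, Der.edge he h1, passes_append.2 ⟨passes_toList.2 fun t h => ?_, h2⟩⟩
              obtain rfl : (φ, b) = t := Option.some.inj h
              exact (hy2 φ hφR).trans hφx
          · have hφ : φ ∉ P.Pre0 u := fun h0 => hred (P.pre0_le u h0)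
            have hφw : φ ∈ P.Pre w := by
              refine P.forms_le_pre (hc.edge he) (mem_forms (p := (φ, b)) ?_)
              simp
            refine P.finish u hAn hc hxc (G ⊔ Submodule.span (ZMod 2) {φ}) (Der.edge he hl) ?_ ?_ ?_
              fun y hy hy2 => ?_
            · apply sup_le
              · exact hGl.trans (forms_mono fun p hp => List.mem_append_right _ hp)
              · rw [Submodule.span_singleton_le_iff_mem]
                exact mem_forms (p := (φ, b)) (by simp)
            · rw [Submodule.disjoint_def]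
              intro p hp hp2
              obtain ⟨g, hg, s, hs2, rfl⟩ := Submodule.mem_sup.1 hp2
              obtain ⟨k, rfl⟩ := Submodule.mem_span_singleton.1 hs2
              have hpc : g + k • φ ∈ P.Pre w := hle hp
              have hgc : g ∈ P.Pre w := by
                have := Submodule.sub_mem _ hpc (Submodule.smul_mem _ k hφw)
                rwa [add_sub_cancel_right] at this
              have hg0 : g = 0 := (Submodule.disjoint_def.1 hdis) g hgc hg
              rw [hg0, zero_add] at hp ⊢
              by_cases hk : k = 0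
              · rw [hk, zero_smul]
              · exfalso
                apply hφ
                have := Submodule.smul_mem _ k⁻¹ hp
                rwa [smul_smul, inv_mul_cancel₀ hk, one_smul] at this
            · refine (Submodule.finrank_add_le_finrank_add_finrank _ _).trans ?_
              have := finrank_span_le_card (R := ZMod 2) ({φ} : Set (Dual (ZMod 2) E))
              rw [Set.toFinset_singleton, Finset.card_singleton] at this
              omega
            · obtain ⟨l', h1, h2⟩ := hG y (fun g hg => hy g (Submodule.mem_sup_left hg)) hy2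
              refine ⟨_, Der.edge he h1, passes_append.2 ⟨passes_toList.2 fun t h => ?_, h2⟩⟩
              obtain rfl : (φ, b) = t := Option.some.inj h
              exact (hy φ (Submodule.mem_sup_right (Submodule.mem_span_singleton_self φ))).trans hφx
    | @fork u v w hf hv hw ih1 ih2 =>
      intro c hc hxc
      obtain ⟨lv, hlv, hxv⟩ := P.tree_der hv
      obtain ⟨lw, hlw, hxw⟩ := P.tree_der hw
      rcases ih1 _ (hc.left hf hlw) (passes_append.2 ⟨hxw, hxc⟩) with
        h | ⟨hv0, G1, l1, hl1, hGl1, hdis1, hfin1, hG1⟩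
      · exact Or.inl h
      rcases ih2 _ (hc.right hf hlv) (passes_append.2 ⟨hxv, hxc⟩) with
        h | ⟨hw0, G2, l2, hl2, hGl2, hdis2, hfin2, hG2⟩
      · exact Or.inl h
      have hle1 : P.Pre0 u ≤ P.Pre v := (P.pre0_le u).trans (P.pre_left hf hlw)
      have hle2 : P.Pre0 u ≤ P.Pre w := (P.pre0_le u).trans (P.pre_right hf hlv)
      have h21 : G2 ≤ P.Pre v := by
        refine hGl2.trans (le_trans (forms_mono fun p hp => ?_) (P.forms_le_pre (hc.left hf hl2)))
        exact List.mem_append_left _ hp
      refine P.finish u hAn hc hxc (G1 ⊔ G2) (Der.fork hf hl1 hl2) ?_ ?_ ?_ fun y hy hy2 => ?_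
      · apply sup_le
        · exact hGl1.trans (forms_mono fun p hp => List.mem_append_left _ hp)
        · exact hGl2.trans (forms_mono fun p hp => List.mem_append_right _ hp)
      · rw [Submodule.disjoint_def]
        intro p hp hp2
        obtain ⟨g1, hg1, g2, hg2, rfl⟩ := Submodule.mem_sup.1 hp2
        have h3 : g1 ∈ P.Pre v := by
          have := Submodule.sub_mem _ (hle1 hp) (h21 hg2)
          rwa [add_sub_cancel_right] at this
        have h4 : g1 = 0 := (Submodule.disjoint_def.1 hdis1) g1 h3 hg1
        rw [h4, zero_add] at hp ⊢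
        exact (Submodule.disjoint_def.1 hdis2) g2 (hle2 hp) hg2
      · refine (Submodule.finrank_add_le_finrank_add_finrank _ _).trans ?_
        omega
      · obtain ⟨l', h1, h2⟩ := hG1 y (fun g hg => hy g (Submodule.mem_sup_left hg)) hy2
        obtain ⟨l'', h3, h4⟩ := hG2 y (fun g hg => hy g (Submodule.mem_sup_right hg)) hy2
        exact ⟨_, Der.fork hf h1 h3, passes_append.2 ⟨h2, h4⟩⟩
  rcases key P.start hx [] Ctx.start (fun p hp => by simp at hp) with h | h
  · exact h
  · exact absurd rfl h.1

end FProg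

end Pool.Agent.WRT
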