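import Pool.Agent.WRT.Cut

set_option autoImplicit false

/-!
# The cut of a decomposable proof tree
-/

namespace Pool.Agent.WRT

open Module

variable {E : Type} [AddCommGroup E] [Module (ZMod 2) E]

lemma forms_append (l l' : List (Dual (ZMod 2) E × ZMod 2)) :
    forms (l ++ l') = forms l ⊔ forms l' := by
  unfold forms
  rw [← Submodule.span_union]
  congr 1
  ext φ
  simp only [Set.mem_setOf_eq, Set.mem_union, List.mem_append]
  constructor
  · rintro ⟨b, h | h⟩
    · exact Or.inl ⟨b, h⟩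
    · exact Or.inr ⟨b, h⟩
  · rintro (⟨b, h⟩ | ⟨b, h⟩)
    · exact ⟨b, Or.inl h⟩
    · exact ⟨b, Or.inr h⟩

lemma forms_nil : forms ([] : List (Dual (ZMod 2) E × ZMod 2)) = ⊥ := by
  unfold forms
  rw [Submodule.span_eq_bot]
  rintro φ ⟨b, h⟩
  simp at h

lemma forms_single (φ : Dual (ZMod 2) E) (b : ZMod 2) :
    forms [(φ, b)] = Submodule.span (ZMod 2) {φ} := by
  unfold forms
  congr 1
  ext ψ
  simp only [Set.mem_setOf_eq, Set.mem_singleton_iff, List.mem_singleton, Prod.mk.injEq]
  constructor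
  · rintro ⟨c, h, _⟩
    exact h
  · intro h
    exact ⟨b, h, rfl⟩

/-- The forms of a list determine whether the tests are passed. -/
lemma passes_of_forms {x y : E} {l : List (Dual (ZMod 2) E × ZMod 2)} (hx : Passes x l)
    (h : ∀ φ ∈ forms l, φ y = φ x) : Passes y l := by
  intro p hp
  rw [h p.1 (mem_forms hp)]
  exact hx p hp

namespace FProg

variable (P : FProg E)

lemma forms_le_post {v : P.V} {l : List (Dual (ZMod 2) E × ZMod 2)} (h : P.Der v l) :
    forms l ≤ P.Post v := by
  apply Submodule.span_mono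
  rintro φ ⟨b, hb⟩
  exact ⟨l, h, b, hb⟩

lemma post_edge {u w : P.V} {lab : Option (Dual (ZMod 2) E × ZMod 2)} (h : P.edge u w lab) :
    P.Post w ≤ P.Post u := by
  apply Submodule.span_mono
  rintro φ ⟨l, hl, b, hb⟩
  exact ⟨_, Der.edge h hl, b, List.mem_append_right _ hb⟩

lemma post_left {u v w : P.V} {l' : List (Dual (ZMod 2) E × ZMod 2)} (h : P.fork u v w)
    (hd : P.Der w l') : P.Post v ≤ P.Post u := by
  apply Submodule.span_mono
  rintro φ ⟨l, hl, b, hb⟩
  exact ⟨_, Der.fork h hl hd, b, List.mem_append_left _ hb⟩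

lemma post_right {u v w : P.V} {l' : List (Dual (ZMod 2) E × ZMod 2)} (h : P.fork u v w)
    (hd : P.Der v l') : P.Post w ≤ P.Post u := by
  apply Submodule.span_mono
  rintro φ ⟨l, hl, b, hb⟩
  exact ⟨_, Der.fork h hd hl, b, List.mem_append_right _ hb⟩

lemma bot_der {x : E} {R : Submodule (ZMod 2) (Dual (ZMod 2) E)} {v : P.V}
    (h : P.TreeBot x R v) : ∃ l, P.Der v l ∧ Passes x l := by
  induction h with
  | final h => exact ⟨[], Der.final h, fun p hp => by simp at hp⟩
  | edge he ht _ ih =>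
    obtain ⟨l, h1, h2⟩ := ih
    exact ⟨_, Der.edge he h1, passes_append.2 ⟨passes_toList.2 fun t h => (ht t h).1, h2⟩⟩
  | fork hf _ _ _ ih1 ih2 =>
    obtain ⟨l, h1, h2⟩ := ih1
    obtain ⟨l', h3, h4⟩ := ih2
    exact ⟨_, Der.fork hf h1 h3, passes_append.2 ⟨h2, h4⟩⟩

lemma accBot_acc {k : ℕ} {x : E} (h : P.AccBot k x) : P.Acc x := by
  obtain ⟨R, _, h2⟩ := h
  exact P.bot_der h2

/-- A relative complement. -/
lemma rel_compl (U W : Submodule (ZMod 2) (Dual (ZMod 2) E)) :
    ∃ H ≤ U, Disjoint H W ∧ U ≤ H ⊔ (U ⊓ W) := by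
  obtain ⟨H, hH⟩ := exists_isCompl (U ⊓ W)
  refine ⟨H ⊓ U, inf_le_right, ?_, ?_⟩
  · rw [Submodule.disjoint_def]
    intro p hp hpW
    obtain ⟨h1, h2⟩ := Submodule.mem_inf.1 hp
    exact (Submodule.disjoint_def.1 hH.disjoint) p (Submodule.mem_inf.2 ⟨h2, hpW⟩) h1
  · intro p hp
    have h1 : p ∈ (U ⊓ W) ⊔ H := by
      rw [hH.sup_eq_top]
      exact Submodule.mem_top
    obtain ⟨a, ha, b, hb, rfl⟩ := Submodule.mem_sup.1 h1
    have hb' : b ∈ U := by
      have := Submodule.sub_mem _ hp (Submodule.mem_inf.1 ha).1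
      rwa [add_sub_cancel_left] at this
    rw [add_comm]
    exact Submodule.add_mem_sup (Submodule.mem_inf.2 ⟨hb, hb'⟩) ha

variable [FiniteDimensional (ZMod 2) E]

/-- All inputs in a large affine subspace through `x` are accepted. -/
def IsLeaf (x : E) (R : Submodule (ZMod 2) (Dual (ZMod 2) E)) (A : ℕ) : Prop :=
  ∃ G : Submodule (ZMod 2) (Dual (ZMod 2) E), finrank (ZMod 2) G ≤ A ∧
    ∀ y, (∀ g ∈ G, g y = g x) → (∀ g ∈ R, g y = g x) → P.Acc y

/-- A cut at the node `v`. -/
def IsNode (x : E) (R : Submodule (ZMod 2) (Dual (ZMod 2) E)) (A N : ℕ) (v : P.V) : Prop :=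
  (∃ l, P.Der v l ∧ Passes x l) ∧ ∃ c G, P.Ctx v c ∧ Passes x c ∧ forms c ≤ G ⊔ R ∧
    Disjoint G (P.Post v) ∧
    A ≤ finrank (ZMod 2) G ∧ 2 * finrank (ZMod 2) G + N ≤ finrank (ZMod 2) E

/-- A cut at a fork with two large sides. -/
def IsFork (x : E) (R : Submodule (ZMod 2) (Dual (ZMod 2) E)) (A N : ℕ) (v w : P.V) : Prop :=
  (∃ l, P.Der v l ∧ Passes x l) ∧ (∃ l, P.Der w l ∧ Passes x l) ∧
    P.Post v ⊓ P.Post w ≤ R ∧
    finrank (ZMod 2) E + 2 * finrank (ZMod 2) ↥(P.Post v ⊓ P.Post w) <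
      2 * (finrank (ZMod 2) (P.Post v) + A) + N ∧
    finrank (ZMod 2) E + 2 * finrank (ZMod 2) ↥(P.Post v ⊓ P.Post w) <
      2 * (finrank (ZMod 2) (P.Post w) + A) + N ∧
    ∃ u c G, P.fork u v w ∧ P.Ctx u c ∧ Passes x c ∧ forms c ≤ G ⊔ R ∧
      Disjoint G (P.Post v ⊔ P.Post w)

/-- The sum of two independent parts. -/
lemma disjoint_step {U V G H : Submodule (ZMod 2) (Dual (ZMod 2) E)} (hG : Disjoint G U)
    (hV : V ≤ U) (hH : H ≤ U) (hHV : Disjoint H V) : Disjoint (H ⊔ G) V := by
  rw [Submodule.disjoint_def]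
  intro p hp hpv
  obtain ⟨s, hs, g, hg, rfl⟩ := Submodule.mem_sup.1 hp
  have h1 : g ∈ U := by
    have := Submodule.sub_mem _ (hV hpv) (hH hs)
    rwa [add_sub_cancel_left] at this
  have h2 : g = 0 := (Submodule.disjoint_def.1 hG) g hg h1
  rw [h2, add_zero] at hpv ⊢
  exact (Submodule.disjoint_def.1 hHV) s hs hpv

/-- Independent parts of a space. -/
lemma finrank_add_le {U H D : Submodule (ZMod 2) (Dual (ZMod 2) E)} (hH : H ≤ U) (hD : D ≤ U)
    (h : Disjoint H D) : finrank (ZMod 2) H + finrank (ZMod 2) D ≤ finrank (ZMod 2) U := by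
  have h1 := Submodule.finrank_sup_add_finrank_inf_eq H D
  rw [h.eq_bot, finrank_bot, add_zero] at h1
  rw [← h1]
  exact Submodule.finrank_mono (sup_le hH hD)

/-- The cut. -/
theorem cutB {x : E} {R : Submodule (ZMod 2) (Dual (ZMod 2) E)} {A N : ℕ} (hA : 1 ≤ A)
    (hAn : 2 * A + N ≤ finrank (ZMod 2) E) (hx : P.TreeBot x R P.start) :
    P.IsLeaf x R A ∨ (∃ v, P.IsNode x R A N v) ∨ ∃ v w, P.IsFork x R A N v w := by
  have hdim : finrank (ZMod 2) (Dual (ZMod 2) E) = finrank (ZMod 2) E :=
    Subspace.dual_finrank_eq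
  have key : ∀ u : P.V, P.TreeBot x R u → ∀ c G, P.Ctx u c → Passes x c →
      forms c ≤ G ⊔ R → Disjoint G (P.Post u) → finrank (ZMod 2) G < A →
      P.IsLeaf x R A ∨ (∃ v, P.IsNode x R A N v) ∨ ∃ v w, P.IsFork x R A N v w := by
    intro u hu
    induction hu with
    | @final v h =>
      intro c G hc hxc hcG _ hsm
      left
      refine ⟨G, hsm.le, fun y hy hyR => ?_⟩
      obtain ⟨l, h1, h2⟩ := P.ctx_plug hc [] (Der.final h)
      refine ⟨l, h1, fun p hp => ?_⟩
      rcases h2 p hp with h3 | h3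
      · refine passes_of_forms hxc (fun φ hφ => ?_) p h3
        obtain ⟨a, ha, b, hb, rfl⟩ := Submodule.mem_sup.1 (hcG hφ)
        rw [LinearMap.add_apply, LinearMap.add_apply, hy a ha, hyR b hb]
      · simp at h3
    | @edge u w lab he ht hw ih =>
      intro c G hc hxc hcG hdis hsm
      have hpost := P.post_edge he
      have hx' : Passes x (lab.toList ++ c) :=
        passes_append.2 ⟨passes_toList.2 fun t h => (ht t h).1, hxc⟩
      have hc' := hc.edge he
      obtain ⟨l, hl, hxl⟩ := P.bot_der hw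
      cases lab with
      | none =>
        have e1 : (none : Option (Dual (ZMod 2) E × ZMod 2)).toList ++ c = c := rfl
        rw [e1] at hx' hc'
        exact ih c G hc' hx' hcG (hdis.mono_right hpost) hsm
      | some t =>
        obtain ⟨φ, b⟩ := t
        have e1 : (some (φ, b) : Option (Dual (ZMod 2) E × ZMod 2)).toList ++ c =
            [(φ, b)] ++ c := rfl
        rw [e1] at hx' hc'
        by_cases hφ : φ ∈ P.Post w
        · have hφR : φ ∈ R := (ht (φ, b) rfl).2 hφ
          refine ih _ G hc' hx' ?_ (hdis.mono_right hpost) hsm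
          rw [forms_append, forms_single]
          refine sup_le ?_ hcG
          rw [Submodule.span_singleton_le_iff_mem]
          exact Submodule.mem_sup_right hφR
        have hφu : φ ∈ P.Post u := by
          refine P.forms_le_post (Der.edge he hl) (mem_forms (p := (φ, b)) ?_)
          simp
        have hφw : Disjoint (Submodule.span (ZMod 2) {φ}) (P.Post w) := by
          rw [Submodule.disjoint_def]
          intro p hp hpw
          obtain ⟨k, rfl⟩ := Submodule.mem_span_singleton.1 hp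
          by_cases hk : k = 0
          · rw [hk, zero_smul]
          · exfalso
            apply hφ
            have := Submodule.smul_mem _ k⁻¹ hpw
            rwa [smul_smul, inv_mul_cancel₀ hk, one_smul] at this
        have hdis' : Disjoint (Submodule.span (ZMod 2) {φ} ⊔ G) (P.Post w) :=
          disjoint_step hdis hpost (by rwa [Submodule.span_singleton_le_iff_mem]) hφw
        have hcG' : forms ([(φ, b)] ++ c) ≤ Submodule.span (ZMod 2) {φ} ⊔ G ⊔ R := by
          rw [forms_append, forms_single, sup_assoc]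
          exact sup_le_sup_left hcG _
        have hfin : finrank (ZMod 2) ↥(Submodule.span (ZMod 2) {φ} ⊔ G) ≤
            finrank (ZMod 2) G + 1 := by
          refine (Submodule.finrank_add_le_finrank_add_finrank _ _).trans ?_
          have := finrank_span_le_card (R := ZMod 2) ({φ} : Set (Dual (ZMod 2) E))
          rw [Set.toFinset_singleton, Finset.card_singleton] at this
          omega
        by_cases hsm' : finrank (ZMod 2) ↥(Submodule.span (ZMod 2) {φ} ⊔ G) < A
        · exact ih _ _ hc' hx' hcG' hdis' hsm'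
        · right
          left
          exact ⟨w, ⟨l, hl, hxl⟩, _, _, hc', hx', hcG', hdis', by omega, by omega⟩
    | @fork u v w hf hvw hv hw ih1 ih2 =>
      intro c G hc hxc hcG hdis hsm
      obtain ⟨lv, hlv, hxv⟩ := P.bot_der hv
      obtain ⟨lw, hlw, hxw⟩ := P.bot_der hw
      have hle1 := P.post_left hf hlw
      have hle2 := P.post_right hf hlv
      obtain ⟨Hw, hHw, hHwd, hHws⟩ := rel_compl (forms lw) (P.Post v)
      obtain ⟨Hv, hHv, hHvd, hHvs⟩ := rel_compl (forms lv) (P.Post w)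
      have hHw2 := hHw.trans (P.forms_le_post hlw)
      have hHv2 := hHv.trans (P.forms_le_post hlv)
      have hdis1 : Disjoint (Hw ⊔ G) (P.Post v) :=
        disjoint_step hdis hle1 (hHw2.trans hle2) hHwd
      have hdis2 : Disjoint (Hv ⊔ G) (P.Post w) :=
        disjoint_step hdis hle2 (hHv2.trans hle1) hHvd
      have hc1 : forms (lw ++ c) ≤ Hw ⊔ G ⊔ R := by
        rw [forms_append]
        refine sup_le (hHws.trans (sup_le (le_sup_left.trans le_sup_left) ?_))
          (hcG.trans (sup_le_sup_right le_sup_right _))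
        refine le_trans ?_ (hvw.trans le_sup_right)
        exact le_inf inf_le_right (inf_le_left.trans (P.forms_le_post hlw))
      have hc2 : forms (lv ++ c) ≤ Hv ⊔ G ⊔ R := by
        rw [forms_append]
        refine sup_le (hHvs.trans (sup_le (le_sup_left.trans le_sup_left) ?_))
          (hcG.trans (sup_le_sup_right le_sup_right _))
        refine le_trans ?_ (hvw.trans le_sup_right)
        exact le_inf (inf_le_left.trans (P.forms_le_post hlv)) inf_le_right
      have hf1 : finrank (ZMod 2) ↥(Hw ⊔ G) ≤ finrank (ZMod 2) Hw + finrank (ZMod 2) G :=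
        Submodule.finrank_add_le_finrank_add_finrank _ _
      have hf2 : finrank (ZMod 2) ↥(Hv ⊔ G) ≤ finrank (ZMod 2) Hv + finrank (ZMod 2) G :=
        Submodule.finrank_add_le_finrank_add_finrank _ _
      have hg1 : finrank (ZMod 2) Hv + finrank (ZMod 2) ↥(P.Post v ⊓ P.Post w) ≤
          finrank (ZMod 2) (P.Post v) :=
        finrank_add_le hHv2 inf_le_left (hHvd.mono_right inf_le_right)
      have hg2 : finrank (ZMod 2) Hw + finrank (ZMod 2) ↥(P.Post v ⊓ P.Post w) ≤
          finrank (ZMod 2) (P.Post w) :=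
        finrank_add_le hHw2 inf_le_right (hHwd.mono_right inf_le_left)
      have hdu : Disjoint G (P.Post v ⊔ P.Post w) := hdis.mono_right (sup_le hle1 hle2)
      rcases le_total (finrank (ZMod 2) Hw) (finrank (ZMod 2) Hv) with hle | hle
      · have hc' := hc.left hf hlw
        have hx' : Passes x (lw ++ c) := passes_append.2 ⟨hxw, hxc⟩
        by_cases h1 : finrank (ZMod 2) ↥(Hw ⊔ G) < A
        · exact ih1 _ _ hc' hx' hc1 hdis1 h1
        · by_cases h2 : 2 * finrank (ZMod 2) ↥(Hw ⊔ G) + N ≤ finrank (ZMod 2) E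
          · right
            left
            exact ⟨v, ⟨lv, hlv, hxv⟩, _, _, hc', hx', hc1, hdis1, by omega, h2⟩
          · right
            right
            exact ⟨v, w, ⟨lv, hlv, hxv⟩, ⟨lw, hlw, hxw⟩, hvw, by omega, by omega, u, c, G, hf,
              hc, hxc, hcG, hdu⟩
      · have hc' := hc.right hf hlv
        have hx' : Passes x (lv ++ c) := passes_append.2 ⟨hxv, hxc⟩
        by_cases h1 : finrank (ZMod 2) ↥(Hv ⊔ G) < A
        · exact ih2 _ _ hc' hx' hc2 hdis2 h1
        · by_cases h2 : 2 * finrank (ZMod 2) ↥(Hv ⊔ G) + N ≤ finrank (ZMod 2) E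
          · right
            left
            exact ⟨w, ⟨lw, hlw, hxw⟩, _, _, hc', hx', hc2, hdis2, by omega, h2⟩
          · right
            right
            exact ⟨v, w, ⟨lv, hlv, hxv⟩, ⟨lw, hlw, hxw⟩, hvw, by omega, by omega, u, c, G, hf,
              hc, hxc, hcG, hdu⟩
  refine key P.start hx [] ⊥ Ctx.start (fun p hp => by simp at hp) ?_ disjoint_bot_left ?_
  · rw [forms_nil]
    exact bot_le
  · rw [finrank_bot]
    omega

end FProg

end Pool.Agent.WRT
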