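import Mathlib

set_option autoImplicit false

/-!
# AND/OR circuits with parity tests

Graphs whose edges carry tests of linear forms over the field with two elements and in which the
computation may fork: a certificate is a proof tree instead of a walk. A node with several edges and
forks is an OR, a fork is an AND.
-/

namespace Pool.Agent.WRT

/-- A linear fork program whose inputs are the vectors of the space `E` over the field with two
elements: a finite set `V` of nodes, a start node, final nodes, edges and forks. An edge has no label
(it is free) or it carries a test, that is a linear form `l` and a value `b`; the test is true on the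
input `x` if `l x = b`. A fork leads from a node to two nodes. -/
structure FProg (E : Type) [AddCommGroup E] [Module (ZMod 2) E] where
  V : Type
  fin : Fintype V
  start : V
  final : V → Prop
  edge : V → V → Option (Module.Dual (ZMod 2) E × ZMod 2) → Prop
  fork : V → V → V → Prop

variable {E : Type} [AddCommGroup E] [Module (ZMod 2) E]

/-- All tests of the list are true on the input `x`. -/
def Passes (x : E) (l : List (Module.Dual (ZMod 2) E × ZMod 2)) : Prop := ∀ p ∈ l, p.1 x = p.2

/-- The span of the forms of the tests in the list. -/
def forms (l : List (Module.Dual (ZMod 2) E × ZMod 2)) :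
    Submodule (ZMod 2) (Module.Dual (ZMod 2) E) :=
  Submodule.span (ZMod 2) {φ | ∃ b, (φ, b) ∈ l}

namespace FProg

variable (P : FProg E)

/-- The number of nodes. -/
def size : ℕ := @Fintype.card P.V P.fin

/-- There is a proof tree from the node whose tests are the members of the list. -/
inductive Der : P.V → List (Module.Dual (ZMod 2) E × ZMod 2) → Prop
  | final {v : P.V} : P.final v → Der v []
  | edge {u w : P.V} {lab : Option (Module.Dual (ZMod 2) E × ZMod 2)}
      {l : List (Module.Dual (ZMod 2) E × ZMod 2)} :
      P.edge u w lab → Der w l → Der u (lab.toList ++ l)
  | fork {u v w : P.V} {l₁ l₂ : List (Module.Dual (ZMod 2) E × ZMod 2)} :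
      P.fork u v w → Der v l₁ → Der w l₂ → Der u (l₁ ++ l₂)

/-- The input `x` is accepted: there is a proof tree from the start node all of whose tests are true
on `x`. -/
def Acc (x : E) : Prop := ∃ l, P.Der P.start l ∧ Passes x l

/-- There is a context of the node, that is a proof tree from the start node which is complete except
for this node, whose tests (outside the node) are the members of the list. -/
inductive Ctx : P.V → List (Module.Dual (ZMod 2) E × ZMod 2) → Prop
  | start : Ctx P.start []
  | edge {u w : P.V} {lab : Option (Module.Dual (ZMod 2) E × ZMod 2)}
      {l : List (Module.Dual (ZMod 2) E × ZMod 2)} :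
      Ctx u l → P.edge u w lab → Ctx w (lab.toList ++ l)
  | left {u v w : P.V} {l l' : List (Module.Dual (ZMod 2) E × ZMod 2)} :
      Ctx u l → P.fork u v w → P.Der w l' → Ctx v (l' ++ l)
  | right {u v w : P.V} {l l' : List (Module.Dual (ZMod 2) E × ZMod 2)} :
      Ctx u l → P.fork u v w → P.Der v l' → Ctx w (l' ++ l)

/-- The span of the linear forms which are tested in the contexts of `v`, that is outside `v`: on the
way from the start node to `v` and in the proof trees of the other sides of the forks. -/
def Pre (v : P.V) : Submodule (ZMod 2) (Module.Dual (ZMod 2) E) :=
  Submodule.span (ZMod 2) {φ | ∃ l, P.Ctx v l ∧ ∃ b, (φ, b) ∈ l}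

/-- There is a proof tree from the node all of whose tests are true on `x` and whose redundant tests
have their forms in `R`. The test of a form `l` on an edge which starts at `u` is redundant if `l` is
in the span of the forms tested outside `u`. -/
inductive TreeTop (x : E) (R : Submodule (ZMod 2) (Module.Dual (ZMod 2) E)) : P.V → Prop
  | final {v : P.V} : P.final v → TreeTop x R v
  | edge {u w : P.V} {lab : Option (Module.Dual (ZMod 2) E × ZMod 2)} :
      P.edge u w lab → (∀ t : Module.Dual (ZMod 2) E × ZMod 2, lab = some t →
        t.1 x = t.2 ∧ (t.1 ∈ P.Pre u → t.1 ∈ R)) → TreeTop x R w → TreeTop x R u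
  | fork {u v w : P.V} : P.fork u v w → TreeTop x R v → TreeTop x R w → TreeTop x R u

/-- The input `x` has an accepting proof tree all of whose tests are true and whose redundant tests
lie in a space of dimension at most `k`. -/
def AccTop (k : ℕ) (x : E) : Prop :=
  ∃ R : Submodule (ZMod 2) (Module.Dual (ZMod 2) E), Module.finrank (ZMod 2) R ≤ k ∧
    P.TreeTop x R P.start

/-- Weakly read-once: a form which is tested on an edge that starts at `u` is not in the span of the
forms tested outside `u`. -/
def ReadOnce : Prop :=
  ∀ u w l b, (∃ c, P.Ctx u c) → P.edge u w (some (l, b)) → l ∉ P.Pre u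

/-- The span of the linear forms which are tested in the proof trees from `v`. -/
def Post (v : P.V) : Submodule (ZMod 2) (Module.Dual (ZMod 2) E) :=
  Submodule.span (ZMod 2) {φ | ∃ l, P.Der v l ∧ ∃ b, (φ, b) ∈ l}

/-- There is a proof tree from the node all of whose tests are true on `x` and whose redundancies lie
in `R`, in the bottom version: the test of a form `l` on an edge which ends at `w` is redundant if `l`
is in the span of the forms tested in the proof trees from `w`; at a fork the forms which are in both
of the spans of the forms tested in the proof trees of the two sides are redundant. -/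
inductive TreeBot (x : E) (R : Submodule (ZMod 2) (Module.Dual (ZMod 2) E)) : P.V → Prop
  | final {v : P.V} : P.final v → TreeBot x R v
  | edge {u w : P.V} {lab : Option (Module.Dual (ZMod 2) E × ZMod 2)} :
      P.edge u w lab → (∀ t : Module.Dual (ZMod 2) E × ZMod 2, lab = some t →
        t.1 x = t.2 ∧ (t.1 ∈ P.Post w → t.1 ∈ R)) → TreeBot x R w → TreeBot x R u
  | fork {u v w : P.V} : P.fork u v w → P.Post v ⊓ P.Post w ≤ R → TreeBot x R v →
      TreeBot x R w → TreeBot x R u

/-- The input `x` has an accepting proof tree all of whose tests are true and whose redundancies (in
the bottom version) lie in a space of dimension at most `k`. -/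
def AccBot (k : ℕ) (x : E) : Prop :=
  ∃ R : Submodule (ZMod 2) (Module.Dual (ZMod 2) E), Module.finrank (ZMod 2) R ≤ k ∧
    P.TreeBot x R P.start

/-- Decomposable: the form of a test on an edge which ends at `w` is not in the span of the forms
tested in the proof trees from `w`, and at each fork the spans of the forms tested in the proof trees
from the two nodes have intersection zero. -/
def Decomposable : Prop :=
  (∀ u w l b, P.edge u w (some (l, b)) → (∃ c, P.Der w c) → l ∉ P.Post w) ∧
    ∀ u v w, P.fork u v w → Disjoint (P.Post v) (P.Post w)

end FProg

/-- An ordinary nondeterministic branching program: there are no forks, and every test is the test of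
a variable. -/
def FProg.Ordinary {ι : Type} (P : FProg (ι → ZMod 2)) : Prop :=
  (∀ u v w, ¬ P.fork u v w) ∧ ∀ u w l b, P.edge u w (some (l, b)) → ∃ i : ι, l = LinearMap.proj i

end Pool.Agent.WRT
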