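import Pool.Agent.WRT.Cut
import Pool.Agent.WRL.MainK

set_option autoImplicit false

/-!
# The lower bound for AND/OR circuits with parity tests
-/

namespace Pool.Agent.WRT

open Module
open Pool.Agent.WRL (IsQ Bm cell mem_cell exists_proj cell_pairs cover CoeffZero coeffZero_iff qn cn
  Bn isQ_qn radicalN card_coeffZero real_step)

variable {E : Type} [AddCommGroup E] [Module (ZMod 2) E]
variable {m : ℕ} {Q : Fin m → E → ZMod 2} {B : Fin m → E →ₗ[ZMod 2] Dual (ZMod 2) E} [Fintype E]

/-- The lower bound. The program accepts only common zeros of the quadratic functions. -/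
theorem lower_tree (hQ : ∀ j, IsQ (Q j) (B j)) {ρ : ℕ} (hm : 0 < m)
    (hB : ∀ μ : Fin m → ZMod 2, μ ≠ 0 → finrank (ZMod 2) (LinearMap.ker (Bm B μ)) ≤ ρ)
    (k : ℕ) (hn : 18 * m + 5 * ρ + 10 * k ≤ finrank (ZMod 2) E)
    (P : FProg E) (hacc : ∀ z, P.Acc z → ∀ j, Q j z = 0)
    [DecidablePred fun z : E => P.AccTop k z] :
    2 ^ m * 2 ^ m * ((Finset.univ.filter fun z : E => P.AccTop k z).card : ℝ) ≤
      P.size * ((∑ i ∈ Finset.range (k + 1), (finrank (ZMod 2) E).choose i : ℕ) *
        (3 * 2 ^ finrank (ZMod 2) E)) := by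
  classical
  have : FiniteDimensional (ZMod 2) E := Module.Finite.of_finite
  let _ := P.fin
  set n := finrank (ZMod 2) E with hn0
  set A := 4 * m + ρ + 2 * k with hA
  set X := {z : E // P.AccTop k z} with hX
  have hcut : ∀ z : X, ∃ (v : P.V) (R G : Submodule (ZMod 2) (Dual (ZMod 2) E)) (a : ℕ),
      finrank (ZMod 2) R ≤ k ∧ P.IsCut z.1 R A v G a := by
    intro z
    obtain ⟨R, h1, h2⟩ := z.2
    obtain ⟨v, G, a, h3⟩ := P.cutT (A := A) (by omega) (by omega) h2
    exact ⟨v, R, G, a, h1, h3⟩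
  choose v hv using hcut
  have hsum : (Finset.univ.filter fun z : E => P.AccTop k z).card =
      ∑ u : P.V, (Finset.univ.filter fun z : X => v z = u).card := by
    rw [← Fintype.card_subtype, ← Finset.card_univ]
    exact Finset.card_eq_sum_card_fiberwise (fun _ _ => Finset.mem_univ _)
  have hfib : ∀ u : P.V, 2 ^ m * 2 ^ m *
      ((Finset.univ.filter fun z : X => v z = u).card : ℝ) ≤
        (∑ i ∈ Finset.range (k + 1), n.choose i : ℕ) * (3 * 2 ^ n) := by
    intro u
    set S : Finset E := (Finset.univ.filter fun z : X => v z = u).image Subtype.val with hS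
    have hScard : S.card = (Finset.univ.filter fun z : X => v z = u).card :=
      Finset.card_image_of_injective _ Subtype.val_injective
    rw [← hScard]
    -- the cell of a point
    have hcell : ∀ z ∈ S, ∃ R' : Submodule (ZMod 2) (Dual (ZMod 2) E), finrank (ZMod 2) R' ≤ k ∧
        2 ^ m * 2 ^ m * ((cell R' z ∩ S).card : ℝ) ≤ 3 * 2 ^ n := by
      intro z hz
      rw [hS, Finset.mem_image] at hz
      obtain ⟨w₀, hw₀, rfl⟩ := hz
      rw [Finset.mem_filter] at hw₀
      obtain ⟨R, G, a, hR, -, ha1, ha2, h2, h3, h4, h5⟩ := hv w₀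
      rw [hw₀.2] at h2 h3 h5
      obtain ⟨L, p, hL, hpW, hpG, hp⟩ := exists_proj h3 (r := n - a) (by omega) (by omega)
      have hker : finrank (ZMod 2) (LinearMap.ker L) = a := by omega
      set c : E := w₀.1 - L w₀.1 with hc
      set R' := Submodule.map p R with hR'
      have hR'dim : finrank (ZMod 2) R' ≤ k := (Submodule.finrank_map_le p _).trans hR
      have hA2 : ∀ z ∈ cell R' w₀.1, ∀ φ ∈ R, φ (L z + c) = φ w₀.1 := by
        intro z hz φ hφ
        rw [hc, map_add, map_sub, hp, hp, mem_cell.1 hz (p φ) (Submodule.mem_map_of_mem hφ)]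
        ring
      have hpairs := cell_pairs hQ hB L c R' hR'dim (by omega) (by omega) w₀.1
      have hsub : cell R' w₀.1 ∩ S ⊆ (cell R' w₀.1).filter fun x : E =>
          (∀ j, Q j x = 0) ∧ ∀ j, Q j (L x + c) = 0 := by
        intro z hz
        rw [Finset.mem_inter] at hz
        obtain ⟨hz1, hz2⟩ := hz
        rw [hS, Finset.mem_image] at hz2
        obtain ⟨w, hw, rfl⟩ := hz2
        rw [Finset.mem_filter] at hw ⊢
        refine ⟨hz1, hacc w.1 (P.accTop_acc w.2), hacc (L w.1 + c) ?_⟩
        obtain ⟨-, Gw, aw, -, ⟨l, hl, hlw⟩, -⟩ := hv w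
        rw [hw.2] at hl
        have h7 : ∃ l, P.Ctx u l ∧ Passes (L w.1 + c) l := by
          by_cases hu : u = P.start
          · rw [hu]
            exact ⟨[], FProg.Ctx.start, fun p hp => by simp at hp⟩
          · rw [P.pre0_ne hu] at hpW
            refine ⟨l, hl, P.ctx_transfer hl hlw fun φ hφ => ?_⟩
            rw [hc, map_add, map_sub, hp, hp, hpW φ hφ]
            ring
        obtain ⟨l₁, hl₁, hp₁⟩ := h7
        obtain ⟨l₂, hl₂, hp₂⟩ := h5 (L w.1 + c) (fun g hg => by
          rw [hc, map_add, map_sub, hp, hp, hpG g hg]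
          simp) fun g hg => hA2 w.1 hz1 g hg
        obtain ⟨l₃, hl₃, h8⟩ := P.ctx_plug hl₁ l₂ hl₂
        refine ⟨l₃, hl₃, fun q hq => ?_⟩
        rcases h8 q hq with h9 | h9
        · exact hp₁ q h9
        · exact hp₂ q h9
      refine ⟨R', hR'dim, le_trans ?_ hpairs⟩
      apply mul_le_mul_of_nonneg_left _ (by positivity)
      have h6 : ((cell R' w₀.1 ∩ S).card : ℝ) ≤ ((cell R' w₀.1).filter fun x : E =>
          (∀ j, Q j x = 0) ∧ ∀ j, Q j (L x + c) = 0).card := by
        exact_mod_cast Finset.card_le_card hsub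
      refine h6.trans (le_mul_of_one_le_right (Nat.cast_nonneg _) ?_)
      exact one_le_pow₀ (by norm_num)
    choose! R' hR'1 hR'2 using hcell
    obtain ⟨I, hIS, hI, hcov⟩ := cover S R' hR'1
    have hsubI : S ⊆ I.biUnion fun z => cell (R' z) z ∩ S := by
      intro x hx
      obtain ⟨z, hz, hxz⟩ := hcov x hx
      exact Finset.mem_biUnion.2 ⟨z, hz, Finset.mem_inter.2 ⟨hxz, hx⟩⟩
    have h1 : (S.card : ℝ) ≤ ∑ z ∈ I, ((cell (R' z) z ∩ S).card : ℝ) := by
      exact_mod_cast (Finset.card_le_card hsubI).trans Finset.card_biUnion_le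
    have h2 : 2 ^ m * 2 ^ m * (S.card : ℝ) ≤ ∑ _z ∈ I, (3 * 2 ^ n : ℝ) := by
      refine (mul_le_mul_of_nonneg_left h1 (by positivity)).trans ?_
      rw [Finset.mul_sum]
      exact Finset.sum_le_sum fun z hz => hR'2 z (hIS hz)
    rw [Finset.sum_const, nsmul_eq_mul] at h2
    refine h2.trans (mul_le_mul_of_nonneg_right ?_ (by positivity))
    exact_mod_cast hI
  rw [hsum]
  push_cast
  rw [Finset.mul_sum]
  refine (Finset.sum_le_sum fun u _ => hfib u).trans (le_of_eq ?_)
  rw [Finset.sum_const, nsmul_eq_mul, Finset.card_univ]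
  push_cast
  rfl

/-- A program which accepts only inputs with the property `CoeffZero` accepts a small part of them
with few redundant tests. -/
theorem one_sided_tree (t m k : ℕ) (hm : 0 < m) (ht : 13 * m + 5 * k ≤ t)
    (P : FProg (Fin (t + m) ⊕ Fin (t + m) → ZMod 2)) (hacc : ∀ z, P.Acc z → CoeffZero t m z) :
    2 ^ m * Nat.card {z // P.AccTop k z} ≤
      6 * (∑ i ∈ Finset.range (k + 1), (2 * (t + m)).choose i) * P.size *
        Nat.card {z // CoeffZero t m z} := by
  classical
  have hdim : finrank (ZMod 2) (Fin (t + m) ⊕ Fin (t + m) → ZMod 2) = 2 * (t + m) := by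
    rw [Module.finrank_pi, Fintype.card_sum, Fintype.card_fin]
    omega
  have h1 := lower_tree (m := m) (Q := fun j => qn (n := t + m) (cn t j))
    (B := fun j => Bn (cn t j)) (fun j => isQ_qn _) (ρ := 2 * m) hm (fun μ hμ => radicalN t μ hμ)
    k (by rw [hdim]; omega) P (fun z hz => (coeffZero_iff z).1 (hacc z hz))
  rw [hdim] at h1
  have e1 : Nat.card {z // P.AccTop k z} = (Finset.univ.filter fun z => P.AccTop k z).card := by
    rw [Nat.card_eq_fintype_card, Fintype.card_subtype]
  rw [← e1] at h1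
  exact real_step h1 (card_coeffZero t m (by omega) hm)

/-- The lower bound for the programs which compute the function. -/
theorem exact_tree (t m k : ℕ) (hm : 0 < m) (ht : 13 * m + 5 * k ≤ t)
    (P : FProg (Fin (t + m) ⊕ Fin (t + m) → ZMod 2)) (hacc : ∀ z, P.Acc z ↔ CoeffZero t m z)
    (hk : ∀ z, P.Acc z → P.AccTop k z) :
    2 ^ m ≤ 6 * (∑ i ∈ Finset.range (k + 1), (2 * (t + m)).choose i) * P.size := by
  classical
  have h1 := one_sided_tree t m k hm ht P fun z hz => (hacc z).1 hz
  have h2 : Nat.card {z // CoeffZero t m z} ≤ Nat.card {z // P.AccTop k z} := by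
    simp only [Nat.card_eq_fintype_card]
    exact Fintype.card_subtype_mono _ _ fun z hz => hk z ((hacc z).2 hz)
  have h3 : 0 < Nat.card {z // CoeffZero t m z} := by
    have : Nonempty {z // CoeffZero t m z} := by
      refine ⟨⟨0, ?_⟩⟩
      rw [coeffZero_iff]
      intro j
      simp [qn]
    exact Nat.card_pos
  exact Nat.le_of_mul_le_mul_right ((Nat.mul_le_mul_left _ h2).trans h1) h3

/-- In a weakly read-once program the accepting trees have no redundant tests. -/
theorem readOnce_accTop {E : Type} [AddCommGroup E] [Module (ZMod 2) E] (P : FProg E)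
    (h : P.ReadOnce) {z : E} (hz : P.Acc z) : P.AccTop 0 z := by
  have key : ∀ (v : P.V) (l : List (Dual (ZMod 2) E × ZMod 2)), P.Der v l → Passes z l →
      ∀ c, P.Ctx v c → P.TreeTop z ⊥ v := by
    intro v l hl
    induction hl with
    | final h => exact fun _ _ _ => FProg.TreeTop.final h
    | @edge u w lab l he _ ih =>
      intro hx c hc
      obtain ⟨hx1, hx2⟩ := passes_append.1 hx
      refine FProg.TreeTop.edge he (fun t ht => ⟨passes_toList.1 hx1 t ht, fun h1 => ?_⟩)
        (ih hx2 _ (hc.edge he))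
      subst ht
      exact absurd h1 (h u w t.1 t.2 ⟨c, hc⟩ he)
    | @fork u v w l₁ l₂ hf h1 h2 ih1 ih2 =>
      intro hx c hc
      obtain ⟨hx1, hx2⟩ := passes_append.1 hx
      exact FProg.TreeTop.fork hf (ih1 hx1 _ (hc.left hf h2)) (ih2 hx2 _ (hc.right hf h1))
  obtain ⟨l, hl, hx⟩ := hz
  exact ⟨⊥, by rw [finrank_bot], key _ l hl hx [] FProg.Ctx.start⟩

end Pool.Agent.WRT
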