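import Pool.Agent.WRL.MainK

set_option autoImplicit false

/-!
# Products of two large sets of independent coordinates inside the common zeros
-/

namespace Pool.Agent.WRT

open Module
open Pool.Agent.WRL (IsQ Bm cell mem_cell card_cell exists_proj qm isQ_qm sg sg_add sg_zero bias
  sq_bound qm_zero Bm_zero ind finrank_le_of_map finrank_ker_comp add_self_zmod)

variable {E : Type} [AddCommGroup E] [Module (ZMod 2) E] [Fintype E]
variable {m : ℕ} {Q : Fin m → E → ZMod 2} {B : Fin m → E →ₗ[ZMod 2] Dual (ZMod 2) E}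

/-- An upper bound for the number of the common zeros. -/
theorem card_zeros_le (hQ : ∀ j, IsQ (Q j) (B j)) (L : E →ₗ[ZMod 2] E) (c : E)
    (hB : ∀ μ : Fin m → ZMod 2, μ ≠ 0 →
      finrank (ZMod 2) (LinearMap.ker (L.dualMap ∘ₗ Bm B μ ∘ₗ L)) + 2 * m ≤ finrank (ZMod 2) E)
    [DecidablePred fun x : E => ∀ j, Q j (L x + c) = 0] :
    2 ^ m * ((Finset.univ.filter fun x : E => ∀ j, Q j (L x + c) = 0).card : ℝ) ≤
      2 * 2 ^ finrank (ZMod 2) E := by
  classical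
  have : FiniteDimensional (ZMod 2) E := Module.Finite.of_finite
  set n := finrank (ZMod 2) E with hn0
  have hE : (Fintype.card E : ℝ) = 2 ^ n := by
    rw [Module.card_eq_pow_finrank (K := ZMod 2), ZMod.card]
    push_cast
    rfl
  have h1 : 2 ^ m * ((Finset.univ.filter fun x : E => ∀ j, Q j (L x + c) = 0).card : ℝ) =
      ∑ μ : Fin m → ZMod 2, ∑ x : E, sg (qm Q μ (L x + c)) := by
    rw [Finset.sum_comm]
    have e1 : ∀ x : E, ∑ μ : Fin m → ZMod 2, sg (qm Q μ (L x + c)) =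
        if ∀ j, Q j (L x + c) = 0 then (2 : ℝ) ^ m else 0 := fun x => ind fun j => Q j (L x + c)
    rw [Finset.sum_congr rfl fun x _ => e1 x, ← Finset.sum_filter, Finset.sum_const,
      nsmul_eq_mul, mul_comm]
  have h2 : ∀ μ : Fin m → ZMod 2, ∑ x : E, sg (qm Q μ (L x + c)) ≤
      2 ^ n / 2 ^ m + if μ = 0 then (2 : ℝ) ^ n else 0 := by
    intro μ
    have hp : (0 : ℝ) ≤ 2 ^ n / 2 ^ m := by positivity
    by_cases h : μ = 0
    · rw [if_pos h, h]
      simp only [qm_zero, sg_zero, Finset.sum_const, Finset.card_univ, nsmul_eq_mul, mul_one, hE]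
      linarith
    · rw [if_neg h]
      have h3 := bias ((isQ_qm hQ μ).comp L c)
      rw [hE] at h3
      have h4 := sq_bound (k := m) h3 (by have := hB μ h; omega)
      have h5 := le_abs_self (∑ x : E, sg (qm Q μ (L x + c)))
      linarith
  rw [h1]
  refine (Finset.sum_le_sum fun (μ : Fin m → ZMod 2) (_ : μ ∈ Finset.univ) => h2 μ).trans ?_
  rw [Finset.sum_add_distrib, Finset.sum_ite_eq' Finset.univ (0 : Fin m → ZMod 2)]
  simp only [Finset.mem_univ, if_true, Finset.sum_const, Finset.card_univ, Fintype.card_pi,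
    ZMod.card, Finset.prod_const, Fintype.card_fin, nsmul_eq_mul, Nat.cast_pow, Nat.cast_ofNat]
  have e : (2 : ℝ) ^ m * (2 ^ n / 2 ^ m) = 2 ^ n := by field_simp
  rw [e]
  linarith

/-- Case of a large cross rank. -/
theorem cross (hQ : ∀ j, IsQ (Q j) (B j)) (L₁ L₂ : E →ₗ[ZMod 2] E) (c : E) (A₁ A₂ : Finset E)
    (h : ∀ x ∈ A₁, ∀ y ∈ A₂, ∀ j, Q j (L₂ y + (L₁ x + c)) = 0) (μ : Fin m → ZMod 2)
    (hμ : finrank (ZMod 2) (LinearMap.ker (L₁.dualMap ∘ₗ Bm B μ ∘ₗ L₂)) + 2 * m ≤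
      finrank (ZMod 2) E) :
    2 ^ m * 2 ^ m * (A₁.card * A₂.card) ≤ 2 ^ finrank (ZMod 2) E * 2 ^ finrank (ZMod 2) E := by
  classical
  have : FiniteDimensional (ZMod 2) E := Module.Finite.of_finite
  set n := finrank (ZMod 2) E with hn0
  rcases A₁.eq_empty_or_nonempty with h1 | ⟨x₀, hx₀⟩
  · rw [h1, Finset.card_empty]
    simp
  rcases A₂.eq_empty_or_nonempty with h2 | ⟨y₀, hy₀⟩
  · rw [h2, Finset.card_empty]
    simp
  set T := L₁.dualMap ∘ₗ Bm B μ ∘ₗ L₂ with hT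
  set D : Submodule (ZMod 2) E := Submodule.span (ZMod 2) {d | ∃ y ∈ A₂, d = y - y₀} with hD
  set I := Submodule.map T D with hI
  have hq : ∀ x ∈ A₁, ∀ y ∈ A₂, qm Q μ (L₂ y + (L₁ x + c)) = 0 := by
    intro x hx y hy
    rw [qm]
    refine Finset.sum_eq_zero fun j _ => ?_
    rw [h x hx y hy j, mul_zero]
  have hconst : ∀ y ∈ A₂, ∀ x ∈ A₁, T (y - y₀) x = T (y - y₀) x₀ := by
    intro y hy x hx
    have hQm := isQ_qm hQ μ
    have e1 := hQm (L₂ y) (L₁ x + c)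
    have e2 := hQm (L₂ y₀) (L₁ x + c)
    have e3 := hQm (L₂ y) (L₁ x₀ + c)
    have e4 := hQm (L₂ y₀) (L₁ x₀ + c)
    rw [hq x hx y hy] at e1
    rw [hq x hx y₀ hy₀] at e2
    rw [hq x₀ hx₀ y hy] at e3
    rw [hq x₀ hx₀ y₀ hy₀] at e4
    simp only [map_add] at e1 e2 e3 e4
    have hexp : ∀ x' : E, T (y - y₀) x' = Bm B μ (L₂ y) (L₁ x') - Bm B μ (L₂ y₀) (L₁ x') := by
      intro x'
      rw [hT]
      simp only [LinearMap.comp_apply, LinearMap.dualMap_apply, map_sub, LinearMap.sub_apply]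
    rw [hexp, hexp]
    linear_combination (-1 : ZMod 2) * e1 + e2 + e3 - e4
  have hcell : A₁ ⊆ cell I x₀ := by
    intro x hx
    rw [mem_cell]
    intro φ hφ
    obtain ⟨d, hd, rfl⟩ := Submodule.mem_map.1 hφ
    clear hφ
    induction hd using Submodule.span_induction with
    | mem d hd =>
      obtain ⟨y, hy, rfl⟩ := hd
      exact hconst y hy x hx
    | zero => simp
    | add d d' _ _ h1 h2 => rw [map_add, LinearMap.add_apply, LinearMap.add_apply, h1, h2]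
    | smul a d _ h1 => rw [map_smul, LinearMap.smul_apply, LinearMap.smul_apply, h1]
  have h1 : A₁.card * 2 ^ finrank (ZMod 2) I ≤ 2 ^ n := by
    rw [← card_cell I x₀]
    exact Nat.mul_le_mul_right _ (Finset.card_le_card hcell)
  have h2 : A₂.card ≤ 2 ^ finrank (ZMod 2) D := by
    have e1 : Fintype.card D = 2 ^ finrank (ZMod 2) D := by
      rw [Module.card_eq_pow_finrank (K := ZMod 2), ZMod.card]
    rw [← e1, ← Fintype.card_coe]
    refine Fintype.card_le_of_injective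
      (fun y : A₂ => (⟨y.1 - y₀, Submodule.subset_span ⟨y.1, y.2, rfl⟩⟩ : D)) fun a b hab => ?_
    have := congrArg Subtype.val hab
    exact Subtype.ext (sub_left_injective this)
  have h3 : finrank (ZMod 2) D ≤ finrank (ZMod 2) (LinearMap.ker T) + finrank (ZMod 2) I :=
    finrank_le_of_map T D _ _ (fun x hx => Submodule.mem_map_of_mem hx)
      fun x _ hx => LinearMap.mem_ker.2 hx
  have h4 : 2 ^ m * 2 ^ m * A₂.card ≤ 2 ^ n * 2 ^ finrank (ZMod 2) I := by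
    refine (Nat.mul_le_mul_left _ h2).trans ?_
    rw [← pow_add, ← pow_add, ← pow_add]
    exact Nat.pow_le_pow_right (by norm_num) (by omega)
  have h5 : 2 ^ m * 2 ^ m * (A₁.card * A₂.card) * 2 ^ finrank (ZMod 2) I ≤
      2 ^ n * 2 ^ n * 2 ^ finrank (ZMod 2) I := by
    calc 2 ^ m * 2 ^ m * (A₁.card * A₂.card) * 2 ^ finrank (ZMod 2) I
        = (A₁.card * 2 ^ finrank (ZMod 2) I) * (2 ^ m * 2 ^ m * A₂.card) := by ring
      _ ≤ 2 ^ n * (2 ^ n * 2 ^ finrank (ZMod 2) I) := Nat.mul_le_mul h1 h4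
      _ = _ := by ring
  exact Nat.le_of_mul_le_mul_right h5 (by positivity)

/-- The kernel of the restricted form if the cross rank is small. -/
lemma ker_small (L₁ L₂ : E →ₗ[ZMod 2] E) (C : E →ₗ[ZMod 2] Dual (ZMod 2) E) {n d₁ d₂ ρ : ℕ}
    (hn : finrank (ZMod 2) E = n) (h₁ : finrank (ZMod 2) (LinearMap.ker L₁) + d₁ = n)
    (h₂ : finrank (ZMod 2) (LinearMap.ker (L₁ + L₂).dualMap) + (d₁ + d₂) ≤ n)
    (hρ : finrank (ZMod 2) (LinearMap.ker C) ≤ ρ)
    (hc : n < finrank (ZMod 2) (LinearMap.ker (L₂.dualMap ∘ₗ C ∘ₗ L₁)) + 2 * m)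
    (hd : n + ρ + 4 * m ≤ 2 * d₁ + d₂) :
    finrank (ZMod 2) (LinearMap.ker (L₁.dualMap ∘ₗ C ∘ₗ L₁)) + 2 * m ≤ n := by
  have : FiniteDimensional (ZMod 2) E := Module.Finite.of_finite
  have h3 := finrank_le_of_map (L₂.dualMap ∘ₗ C ∘ₗ L₁)
    (LinearMap.ker (L₁.dualMap ∘ₗ C ∘ₗ L₁)) (LinearMap.ker ((L₁ + L₂).dualMap ∘ₗ C ∘ₗ L₁))
    (LinearMap.range (L₂.dualMap ∘ₗ C ∘ₗ L₁)) (fun x _ => ⟨x, rfl⟩) (by
      intro x hx hx2
      rw [LinearMap.mem_ker] at hx ⊢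
      refine LinearMap.ext fun y => ?_
      have e1 := congrArg (fun φ : Dual (ZMod 2) E => φ y) hx
      have e2 := congrArg (fun φ : Dual (ZMod 2) E => φ y) hx2
      simp only [LinearMap.comp_apply, LinearMap.dualMap_apply, LinearMap.zero_apply] at e1 e2 ⊢
      rw [LinearMap.add_apply, map_add, e1, e2, add_zero])
  have h4 := LinearMap.finrank_range_add_finrank_ker (L₂.dualMap ∘ₗ C ∘ₗ L₁)
  have h5 := finrank_ker_comp (C ∘ₗ L₁) (L₁ + L₂).dualMap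
  have h6 := finrank_ker_comp L₁ C
  rw [hn] at h4
  omega

/-- The product bound. -/
theorem prod_bound (hQ : ∀ j, IsQ (Q j) (B j)) {ρ : ℕ}
    (hB : ∀ μ : Fin m → ZMod 2, μ ≠ 0 → finrank (ZMod 2) (LinearMap.ker (Bm B μ)) ≤ ρ)
    {V₁ V₂ O : Submodule (ZMod 2) (Dual (ZMod 2) E)} (h12 : Disjoint V₁ V₂)
    (hO : Disjoint O (V₁ ⊔ V₂))
    (hd₁ : finrank (ZMod 2) E + ρ + 4 * m ≤ 2 * finrank (ZMod 2) V₁ + finrank (ZMod 2) V₂)
    (hd₂ : finrank (ZMod 2) E + ρ + 4 * m ≤ 2 * finrank (ZMod 2) V₂ + finrank (ZMod 2) V₁)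
    (A₁ A₂ : Finset E) (hA₁ : ∀ x ∈ A₁, ∀ y, (∀ φ ∈ V₁, φ y = φ x) → y ∈ A₁)
    (hA₂ : ∀ x ∈ A₂, ∀ y, (∀ φ ∈ V₂, φ y = φ x) → y ∈ A₂) (z : E)
    (hz : ∀ y ∈ A₁, y ∈ A₂ → (∀ g ∈ O, g y = g z) → ∀ j, Q j y = 0) [DecidableEq E] :
    2 ^ m * 2 ^ m * ((A₁ ∩ A₂).card : ℝ) ≤ 4 * 2 ^ finrank (ZMod 2) E := by
  classical
  have : FiniteDimensional (ZMod 2) E := Module.Finite.of_finite
  have hdim : finrank (ZMod 2) (Dual (ZMod 2) E) = finrank (ZMod 2) E :=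
    Subspace.dual_finrank_eq
  set n := finrank (ZMod 2) E with hn0
  have hdis₁ : Disjoint V₁ (V₂ ⊔ O) := by
    rw [Submodule.disjoint_def]
    intro v hv hv'
    obtain ⟨w, hw, o, ho, rfl⟩ := Submodule.mem_sup.1 hv'
    have h1 : o ∈ V₁ ⊔ V₂ := by
      have e : o = (w + o) - w := by abel
      rw [e]
      exact Submodule.sub_mem _ (Submodule.mem_sup_left hv) (Submodule.mem_sup_right hw)
    have h2 : o = 0 := (Submodule.disjoint_def.1 hO) o ho h1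
    rw [h2, add_zero] at hv ⊢
    exact (Submodule.disjoint_def.1 h12) w hv hw
  have hdis₂ : Disjoint V₂ (V₁ ⊔ O) := by
    rw [Submodule.disjoint_def]
    intro v hv hv'
    obtain ⟨w, hw, o, ho, rfl⟩ := Submodule.mem_sup.1 hv'
    have h1 : o ∈ V₁ ⊔ V₂ := by
      have e : o = (w + o) - w := by abel
      rw [e]
      exact Submodule.sub_mem _ (Submodule.mem_sup_right hv) (Submodule.mem_sup_left hw)
    have h2 : o = 0 := (Submodule.disjoint_def.1 hO) o ho h1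
    rw [h2, add_zero] at hv ⊢
    exact (Submodule.disjoint_def.1 h12) w hw hv
  have hf₁ := Submodule.finrank_add_finrank_le_of_disjoint hdis₁
  have hf₂ := Submodule.finrank_add_finrank_le_of_disjoint hdis₂
  rw [hdim] at hf₁ hf₂
  obtain ⟨L₁, p₁, hL₁, hpV₁, hpG₁, hp₁⟩ := exists_proj hdis₁ (r := finrank (ZMod 2) V₁) (le_refl _)
    (by omega)
  obtain ⟨L₂, p₂, hL₂, hpV₂, hpG₂, hp₂⟩ := exists_proj hdis₂ (r := finrank (ZMod 2) V₂) (le_refl _)
    (by omega)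
  rw [← hn0] at hL₁ hL₂
  -- independence
  have hinj : (A₁ ∩ A₂).card * 2 ^ n ≤ A₁.card * A₂.card := by
    have e1 : 2 ^ n = (Finset.univ : Finset E).card := by
      rw [Finset.card_univ, Module.card_eq_pow_finrank (K := ZMod 2), ZMod.card]
    rw [e1, ← Finset.card_product, ← Finset.card_product]
    refine Finset.card_le_card_of_injOn (fun q : E × E => (q.1 + q.2 - L₁ q.2, q.1 - L₁ q.2)) ?_ ?_
    · rintro ⟨y, h⟩ hq
      rw [Finset.mem_coe, Finset.mem_product, Finset.mem_inter] at hq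
      obtain ⟨⟨hy1, hy2⟩, -⟩ := hq
      rw [Finset.mem_coe, Finset.mem_product]
      refine ⟨hA₁ y hy1 _ fun φ hφ => ?_, hA₂ y hy2 _ fun φ hφ => ?_⟩
      · show φ (y + h - L₁ h) = φ y
        rw [map_sub, map_add, hp₁, hpV₁ φ hφ]
        ring
      · show φ (y - L₁ h) = φ y
        rw [map_sub, hp₁, hpG₁ φ (Submodule.mem_sup_left hφ)]
        simp
    · rintro ⟨y, h⟩ _ ⟨y', h'⟩ _ he
      have e2 := congrArg Prod.fst he
      have e3 := congrArg Prod.snd he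
      simp only at e2 e3
      have e4 : h = h' := by
        have : h = (y + h - L₁ h) - (y - L₁ h) := by abel
        rw [this, e2, e3]
        abel
      subst e4
      have e5 : y = y' := sub_left_injective e3
      rw [e5]
  set c : E := z - L₁ z - L₂ z with hc
  have hzero : ∀ x ∈ A₁, ∀ y ∈ A₂, ∀ j, Q j (L₂ y + (L₁ x + c)) = 0 := by
    intro x hx y hy
    refine hz _ (hA₁ x hx _ fun φ hφ => ?_) (hA₂ y hy _ fun φ hφ => ?_) fun g hg => ?_
    · rw [hc, map_add, map_add, map_sub, map_sub, hp₁, hp₁, hp₂, hp₂, hpV₁ φ hφ,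
        hpG₂ φ (Submodule.mem_sup_left hφ)]
      simp
    · rw [hc, map_add, map_add, map_sub, map_sub, hp₁, hp₁, hp₂, hp₂, hpV₂ φ hφ,
        hpG₁ φ (Submodule.mem_sup_left hφ)]
      simp
    · rw [hc, map_add, map_add, map_sub, map_sub, hp₁, hp₁, hp₂, hp₂,
        hpG₂ g (Submodule.mem_sup_right hg), hpG₁ g (Submodule.mem_sup_right hg)]
      simp
  have hzero' : ∀ y ∈ A₂, ∀ x ∈ A₁, ∀ j, Q j (L₁ x + (L₂ y + c)) = 0 := by
    intro y hy x hx j
    have e : L₁ x + (L₂ y + c) = L₂ y + (L₁ x + c) := by abel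
    rw [e]
    exact hzero x hx y hy j
  -- it is enough to bound the product of the cardinalities
  have hfin : (2 : ℝ) ^ m * 2 ^ m * ((A₁.card : ℝ) * A₂.card) ≤ 4 * (2 ^ n * 2 ^ n) →
      2 ^ m * 2 ^ m * ((A₁ ∩ A₂).card : ℝ) ≤ 4 * 2 ^ n := by
    intro h
    have h1 : ((A₁ ∩ A₂).card : ℝ) * 2 ^ n ≤ (A₁.card : ℝ) * A₂.card := by exact_mod_cast hinj
    have h2 : (0 : ℝ) < 2 ^ n := by positivity
    have h3 : (0 : ℝ) ≤ 2 ^ m * 2 ^ m := by positivity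
    have h4 : 2 ^ m * 2 ^ m * ((A₁ ∩ A₂).card : ℝ) * 2 ^ n ≤ 4 * 2 ^ n * 2 ^ n := by
      calc 2 ^ m * 2 ^ m * ((A₁ ∩ A₂).card : ℝ) * 2 ^ n
          = 2 ^ m * 2 ^ m * (((A₁ ∩ A₂).card : ℝ) * 2 ^ n) := by ring
        _ ≤ 2 ^ m * 2 ^ m * ((A₁.card : ℝ) * A₂.card) := mul_le_mul_of_nonneg_left h1 h3
        _ ≤ _ := h.trans (le_of_eq (by ring))
    exact le_of_mul_le_mul_right h4 h2
  apply hfin
  by_cases hI : ∃ μ : Fin m → ZMod 2,
      finrank (ZMod 2) (LinearMap.ker (L₁.dualMap ∘ₗ Bm B μ ∘ₗ L₂)) + 2 * m ≤ n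
  · obtain ⟨μ, hμ⟩ := hI
    have h1 := cross hQ L₁ L₂ c A₁ A₂ hzero μ hμ
    have h2 : (2 : ℝ) ^ m * 2 ^ m * ((A₁.card : ℝ) * A₂.card) ≤ 2 ^ n * 2 ^ n := by
      exact_mod_cast h1
    have h3 : (0 : ℝ) ≤ 2 ^ n * 2 ^ n := by positivity
    linarith
  by_cases hI' : ∃ μ : Fin m → ZMod 2,
      finrank (ZMod 2) (LinearMap.ker (L₂.dualMap ∘ₗ Bm B μ ∘ₗ L₁)) + 2 * m ≤ n
  · obtain ⟨μ, hμ⟩ := hI'
    have h1 := cross hQ L₂ L₁ c A₂ A₁ hzero' μ hμ
    have h2 : (2 : ℝ) ^ m * 2 ^ m * ((A₂.card : ℝ) * A₁.card) ≤ 2 ^ n * 2 ^ n := by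
      exact_mod_cast h1
    have h3 : (0 : ℝ) ≤ 2 ^ n * 2 ^ n := by positivity
    have h4 : (A₂.card : ℝ) * A₁.card = A₁.card * A₂.card := mul_comm _ _
    rw [h4] at h2
    linarith
  push Not at hI hI'
  have hrange : ∀ L' : E →ₗ[ZMod 2] E, V₁ ⊔ V₂ ≤ LinearMap.range L'.dualMap →
      finrank (ZMod 2) (LinearMap.ker L'.dualMap) +
        (finrank (ZMod 2) V₁ + finrank (ZMod 2) V₂) ≤ n := by
    intro L' hL'
    have h1 := LinearMap.finrank_range_add_finrank_ker L'.dualMap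
    have h2 := Submodule.finrank_mono hL'
    have h3 := Submodule.finrank_sup_add_finrank_inf_eq V₁ V₂
    rw [h12.eq_bot, finrank_bot, add_zero] at h3
    rw [hdim] at h1
    omega
  have hsum : V₁ ⊔ V₂ ≤ LinearMap.range (L₁ + L₂).dualMap := by
    refine sup_le (fun φ hφ => ⟨φ, ?_⟩) fun φ hφ => ⟨φ, ?_⟩
    · refine LinearMap.ext fun x => ?_
      rw [LinearMap.dualMap_apply, LinearMap.add_apply, map_add, hp₁, hp₂, hpV₁ φ hφ,
        hpG₂ φ (Submodule.mem_sup_left hφ)]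
      simp
    · refine LinearMap.ext fun x => ?_
      rw [LinearMap.dualMap_apply, LinearMap.add_apply, map_add, hp₁, hp₂, hpV₂ φ hφ,
        hpG₁ φ (Submodule.mem_sup_left hφ)]
      simp
  have hk := hrange _ hsum
  have hk' : finrank (ZMod 2) (LinearMap.ker (L₂ + L₁).dualMap) +
      (finrank (ZMod 2) V₂ + finrank (ZMod 2) V₁) ≤ n := by
    rw [add_comm L₂ L₁]
    omega
  rcases A₁.eq_empty_or_nonempty with h1 | ⟨x₀, hx₀⟩
  · rw [h1, Finset.card_empty, Nat.cast_zero, zero_mul, mul_zero]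
    positivity
  rcases A₂.eq_empty_or_nonempty with h2 | ⟨y₀, hy₀⟩
  · rw [h2, Finset.card_empty, Nat.cast_zero, mul_zero, mul_zero]
    positivity
  have b₁ : (2 : ℝ) ^ m * A₁.card ≤ 2 * 2 ^ n := by
    have h3 := card_zeros_le hQ L₁ (L₂ y₀ + c) fun μ hμ =>
      ker_small (m := m) L₁ L₂ (Bm B μ) hn0.symm hL₁ hk (hB μ hμ) (hI' μ) (by omega)
    refine le_trans ?_ h3
    apply mul_le_mul_of_nonneg_left _ (by positivity)
    have : A₁ ⊆ Finset.univ.filter fun x : E => ∀ j, Q j (L₁ x + (L₂ y₀ + c)) = 0 := by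
      intro x hx
      rw [Finset.mem_filter]
      exact ⟨Finset.mem_univ _, hzero' y₀ hy₀ x hx⟩
    exact_mod_cast Finset.card_le_card this
  have b₂ : (2 : ℝ) ^ m * A₂.card ≤ 2 * 2 ^ n := by
    have h3 := card_zeros_le hQ L₂ (L₁ x₀ + c) fun μ hμ =>
      ker_small (m := m) L₂ L₁ (Bm B μ) hn0.symm hL₂ hk' (hB μ hμ) (hI μ) (by omega)
    refine le_trans ?_ h3
    apply mul_le_mul_of_nonneg_left _ (by positivity)
    have : A₂ ⊆ Finset.univ.filter fun x : E => ∀ j, Q j (L₂ x + (L₁ x₀ + c)) = 0 := by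
      intro y hy
      rw [Finset.mem_filter]
      exact ⟨Finset.mem_univ _, hzero x₀ hx₀ y hy⟩
    exact_mod_cast Finset.card_le_card this
  calc (2 : ℝ) ^ m * 2 ^ m * ((A₁.card : ℝ) * A₂.card)
      = (2 ^ m * A₁.card) * (2 ^ m * A₂.card) := by ring
    _ ≤ (2 * 2 ^ n) * (2 * 2 ^ n) :=
        mul_le_mul b₁ b₂ (by positivity) (by positivity)
    _ = _ := by ring

end Pool.Agent.WRT
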