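import Pool.Agent.WRT.CutB
import Pool.Agent.WRT.Prod
import Pool.Agent.WRL.MainK

set_option autoImplicit false

/-!
# The lower bound for nearly decomposable AND/OR circuits with parity tests
-/

namespace Pool.Agent.WRT

open Module
open Pool.Agent.WRL (IsQ Bm cell mem_cell mem_cell_self exists_proj cell_pairs cover CoeffZero
  coeffZero_iff qn cn Bn isQ_qn radicalN card_coeffZero)

variable {E : Type} [AddCommGroup E] [Module (ZMod 2) E]
variable {m : ℕ} {Q : Fin m → E → ZMod 2} {B : Fin m → E →ₗ[ZMod 2] Dual (ZMod 2) E} [Fintype E]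

/-- The points of a cell at a leaf. -/
lemma leaf_cell (hQ : ∀ j, IsQ (Q j) (B j)) {ρ k : ℕ}
    (hB : ∀ μ : Fin m → ZMod 2, μ ≠ 0 → finrank (ZMod 2) (LinearMap.ker (Bm B μ)) ≤ ρ)
    (hn : 38 * m + 11 * ρ + 18 * k ≤ finrank (ZMod 2) E + 3) (hm : 0 < m)
    [FiniteDimensional (ZMod 2) E]
    (P : FProg E) (hacc : ∀ z, P.Acc z → ∀ j, Q j z = 0) (S : Finset E)
    (hS : ∀ z ∈ S, P.Acc z) (z₀ : E) {R : Submodule (ZMod 2) (Dual (ZMod 2) E)}
    (hR : finrank (ZMod 2) R ≤ k) (hleaf : P.IsLeaf z₀ R (4 * m + ρ + 2 * k)) [DecidableEq E] :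
    ∃ R' : Submodule (ZMod 2) (Dual (ZMod 2) E), finrank (ZMod 2) R' ≤ 2 * k ∧
      2 ^ m * 2 ^ m * ((cell R' z₀ ∩ S).card : ℝ) ≤ 4 * 2 ^ finrank (ZMod 2) E := by
  classical
  obtain ⟨G, hG, hall⟩ := hleaf
  obtain ⟨L, p, hL, -, hpG, hp⟩ := exists_proj (disjoint_bot_left : Disjoint ⊥ G)
    (r := finrank (ZMod 2) E - (4 * m + ρ + 2 * k)) (by rw [finrank_bot]; omega) (by omega)
  set R' := Submodule.map p R with hR'
  have hR'dim : finrank (ZMod 2) R' ≤ k := (Submodule.finrank_map_le p _).trans hR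
  have hpairs := cell_pairs hQ hB L (z₀ - L z₀) R' hR'dim (by omega) (by omega) z₀
  refine ⟨R', by omega, ?_⟩
  have h4 : (3 : ℝ) * 2 ^ finrank (ZMod 2) E ≤ 4 * 2 ^ finrank (ZMod 2) E := by
    apply mul_le_mul_of_nonneg_right (by norm_num) (by positivity)
  refine le_trans ?_ (hpairs.trans h4)
  apply mul_le_mul_of_nonneg_left _ (by positivity)
  have hsub : cell R' z₀ ∩ S ⊆ (cell R' z₀).filter fun x : E =>
      (∀ j, Q j x = 0) ∧ ∀ j, Q j (L x + (z₀ - L z₀)) = 0 := by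
    intro z hz
    rw [Finset.mem_inter] at hz
    rw [Finset.mem_filter]
    refine ⟨hz.1, hacc z (hS z hz.2), hacc _ (hall _ (fun g hg => ?_) fun g hg => ?_)⟩
    · rw [map_add, map_sub, hp, hp, hpG g hg]
      simp
    · rw [map_add, map_sub, hp, hp, mem_cell.1 hz.1 (p g) (Submodule.mem_map_of_mem hg)]
      ring
  have h6 : ((cell R' z₀ ∩ S).card : ℝ) ≤ ((cell R' z₀).filter fun x : E =>
      (∀ j, Q j x = 0) ∧ ∀ j, Q j (L x + (z₀ - L z₀)) = 0).card := by
    exact_mod_cast Finset.card_le_card hsub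
  refine h6.trans (le_mul_of_one_le_right (Nat.cast_nonneg _) ?_)
  exact one_le_pow₀ (by norm_num)

/-- The points of a cell at a node. -/
lemma node_cell (hQ : ∀ j, IsQ (Q j) (B j)) {ρ k : ℕ}
    (hB : ∀ μ : Fin m → ZMod 2, μ ≠ 0 → finrank (ZMod 2) (LinearMap.ker (Bm B μ)) ≤ ρ)
    [FiniteDimensional (ZMod 2) E]
    (P : FProg E) (hacc : ∀ z, P.Acc z → ∀ j, Q j z = 0) (v : P.V) (S : Finset E)
    (hS : ∀ z ∈ S, P.Acc z) (hSv : ∀ z ∈ S, ∃ l, P.Der v l ∧ Passes z l) (z₀ : E)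
    {R : Submodule (ZMod 2) (Dual (ZMod 2) E)} (hR : finrank (ZMod 2) R ≤ k)
    (hnode : P.IsNode z₀ R (4 * m + ρ + 2 * k) (ρ + 2 * m + 2 * k) v) [DecidableEq E] :
    ∃ R' : Submodule (ZMod 2) (Dual (ZMod 2) E), finrank (ZMod 2) R' ≤ 2 * k ∧
      2 ^ m * 2 ^ m * ((cell R' z₀ ∩ S).card : ℝ) ≤ 4 * 2 ^ finrank (ZMod 2) E := by
  classical
  have hdim : finrank (ZMod 2) (Dual (ZMod 2) E) = finrank (ZMod 2) E :=
    Subspace.dual_finrank_eq
  obtain ⟨-, c, G, hc, hzc, hcG, hd, hA1, hA2⟩ := hnode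
  have hsum : finrank (ZMod 2) (P.Post v) + finrank (ZMod 2) G ≤ finrank (ZMod 2) E := by
    have h3 := Submodule.finrank_sup_add_finrank_inf_eq G (P.Post v)
    have h4 := Submodule.finrank_le (G ⊔ P.Post v)
    rw [hd.eq_bot, finrank_bot, add_zero] at h3
    omega
  obtain ⟨L, p, hL, hpW, hpG, hp⟩ := exists_proj hd.symm
    (r := finrank (ZMod 2) E - finrank (ZMod 2) G) (by omega) (by omega)
  set R' := Submodule.map p R with hR'
  have hR'dim : finrank (ZMod 2) R' ≤ k := (Submodule.finrank_map_le p _).trans hR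
  have hpairs := cell_pairs hQ hB L (z₀ - L z₀) R' hR'dim (by omega) (by omega) z₀
  refine ⟨R', by omega, ?_⟩
  have h4 : (3 : ℝ) * 2 ^ finrank (ZMod 2) E ≤ 4 * 2 ^ finrank (ZMod 2) E := by
    apply mul_le_mul_of_nonneg_right (by norm_num) (by positivity)
  refine le_trans ?_ (hpairs.trans h4)
  apply mul_le_mul_of_nonneg_left _ (by positivity)
  have hsub : cell R' z₀ ∩ S ⊆ (cell R' z₀).filter fun x : E =>
      (∀ j, Q j x = 0) ∧ ∀ j, Q j (L x + (z₀ - L z₀)) = 0 := by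
    intro z hz
    rw [Finset.mem_inter] at hz
    rw [Finset.mem_filter]
    refine ⟨hz.1, hacc z (hS z hz.2), hacc _ ?_⟩
    obtain ⟨l, hl, hzl⟩ := hSv z hz.2
    obtain ⟨l₃, hl₃, h8⟩ := P.ctx_plug hc l hl
    refine ⟨l₃, hl₃, fun q hq => ?_⟩
    rcases h8 q hq with h9 | h9
    · refine passes_of_forms hzc (fun φ hφ => ?_) q h9
      obtain ⟨a, ha, b, hb, rfl⟩ := Submodule.mem_sup.1 (hcG hφ)
      have e1 : a (L z + (z₀ - L z₀)) = a z₀ := by
        rw [map_add, map_sub, hp, hp, hpG a ha]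
        simp
      have e2 : b (L z + (z₀ - L z₀)) = b z₀ := by
        rw [map_add, map_sub, hp, hp, mem_cell.1 hz.1 (p b) (Submodule.mem_map_of_mem hb)]
        ring
      rw [LinearMap.add_apply, LinearMap.add_apply, e1, e2]
    · refine passes_of_forms hzl (fun φ hφ => ?_) q h9
      rw [map_add, map_sub, hp, hp, hpW φ (P.forms_le_post hl hφ)]
      ring
  have h6 : ((cell R' z₀ ∩ S).card : ℝ) ≤ ((cell R' z₀).filter fun x : E =>
      (∀ j, Q j x = 0) ∧ ∀ j, Q j (L x + (z₀ - L z₀)) = 0).card := by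
    exact_mod_cast Finset.card_le_card hsub
  refine h6.trans (le_mul_of_one_le_right (Nat.cast_nonneg _) ?_)
  exact one_le_pow₀ (by norm_num)

/-- The part of `R` in `V` modulo `X`. -/
lemma part_dim [FiniteDimensional (ZMod 2) E] {R X V D : Submodule (ZMod 2) (Dual (ZMod 2) E)}
    (hXV : Disjoint X V) (hDR : D ≤ R) (hDX : D ≤ X) :
    finrank (ZMod 2) ↥((R ⊔ X) ⊓ V) + finrank (ZMod 2) D ≤ finrank (ZMod 2) R := by
  have h1 := Submodule.finrank_sup_add_finrank_inf_eq R X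
  have h2 : finrank (ZMod 2) ↥((R ⊔ X) ⊓ V) + finrank (ZMod 2) X ≤ finrank (ZMod 2) ↥(R ⊔ X) :=
    FProg.finrank_add_le inf_le_left le_sup_right (hXV.symm.mono_left inf_le_right)
  have h3 : finrank (ZMod 2) D ≤ finrank (ZMod 2) ↥(R ⊓ X) :=
    Submodule.finrank_mono (le_inf hDR hDX)
  omega

/-- The points of a cell at a fork. -/
lemma fork_cell (hQ : ∀ j, IsQ (Q j) (B j)) {ρ k : ℕ}
    (hB : ∀ μ : Fin m → ZMod 2, μ ≠ 0 → finrank (ZMod 2) (LinearMap.ker (Bm B μ)) ≤ ρ)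
    (hn : 38 * m + 11 * ρ + 18 * k ≤ finrank (ZMod 2) E + 3)
    [FiniteDimensional (ZMod 2) E]
    (P : FProg E) (hacc : ∀ z, P.Acc z → ∀ j, Q j z = 0) (v w : P.V) (S : Finset E)
    (hSv : ∀ z ∈ S, ∃ l, P.Der v l ∧ Passes z l) (hSw : ∀ z ∈ S, ∃ l, P.Der w l ∧ Passes z l)
    (z₀ : E) {R : Submodule (ZMod 2) (Dual (ZMod 2) E)} (hR : finrank (ZMod 2) R ≤ k)
    (hfork : P.IsFork z₀ R (4 * m + ρ + 2 * k) (ρ + 2 * m + 2 * k) v w) [DecidableEq E] :
    ∃ R' : Submodule (ZMod 2) (Dual (ZMod 2) E), finrank (ZMod 2) R' ≤ 2 * k ∧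
      2 ^ m * 2 ^ m * ((cell R' z₀ ∩ S).card : ℝ) ≤ 4 * 2 ^ finrank (ZMod 2) E := by
  classical
  obtain ⟨-, -, hDR, hd1, hd2, u, c, G, hf, hc, hzc, hcG, hO⟩ := hfork
  set D := P.Post v ⊓ P.Post w with hD
  obtain ⟨V₁, hV₁, hV₁d, hV₁s⟩ := FProg.rel_compl (P.Post v) (P.Post w)
  obtain ⟨V₂, hV₂, hV₂d, hV₂s⟩ := FProg.rel_compl (P.Post w) (P.Post v)
  rw [inf_comm (P.Post w) (P.Post v), ← hD] at hV₂s
  rw [← hD] at hV₁s
  have hf1 : finrank (ZMod 2) (P.Post v) ≤ finrank (ZMod 2) V₁ + finrank (ZMod 2) D :=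
    (Submodule.finrank_mono hV₁s).trans (Submodule.finrank_add_le_finrank_add_finrank _ _)
  have hf2 : finrank (ZMod 2) (P.Post w) ≤ finrank (ZMod 2) V₂ + finrank (ZMod 2) D :=
    (Submodule.finrank_mono hV₂s).trans (Submodule.finrank_add_le_finrank_add_finrank _ _)
  have h12 : Disjoint V₁ V₂ := hV₁d.mono_right hV₂
  -- a complement of the two parts
  have hGD : Disjoint (G ⊔ D) (V₁ ⊔ V₂) := by
    rw [Submodule.disjoint_def]
    intro p hp hp'
    obtain ⟨g, hg, d, hd, rfl⟩ := Submodule.mem_sup.1 hp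
    obtain ⟨a, ha, b, hb, hab⟩ := Submodule.mem_sup.1 hp'
    have hdv : d ∈ P.Post v := (Submodule.mem_inf.1 hd).1
    have hdw : d ∈ P.Post w := (Submodule.mem_inf.1 hd).2
    have hg0 : g = 0 := by
      refine (Submodule.disjoint_def.1 hO) g hg ?_
      have e1 : g = a + b - d := by rw [hab]; abel
      rw [e1]
      refine Submodule.sub_mem _ (Submodule.add_mem _ ?_ ?_) ?_
      · exact Submodule.mem_sup_left (hV₁ ha)
      · exact Submodule.mem_sup_right (hV₂ hb)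
      · exact Submodule.mem_sup_left hdv
    rw [hg0, zero_add] at hab ⊢
    have ha0 : a = 0 := by
      refine (Submodule.disjoint_def.1 hV₁d) a ha ?_
      have e1 : a = d - b := by rw [← hab]; abel
      rw [e1]
      exact Submodule.sub_mem _ hdw (hV₂ hb)
    rw [ha0, zero_add] at hab
    rw [hab] at hb
    exact (Submodule.disjoint_def.1 hV₂d) d hb hdv
  obtain ⟨O, hGO, hOc⟩ := hGD.exists_isCompl
  have hDO : D ≤ O := le_sup_right.trans hGO
  have hGO' : G ≤ O := le_sup_left.trans hGO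
  set R₁ := (R ⊔ (O ⊔ V₂)) ⊓ V₁ with hR₁
  set R₂ := (R ⊔ (O ⊔ V₁)) ⊓ V₂ with hR₂
  have hX₁ : Disjoint (O ⊔ V₂) V₁ := by
    rw [Submodule.disjoint_def]
    intro p hp hpV
    obtain ⟨o, ho, b, hb, rfl⟩ := Submodule.mem_sup.1 hp
    have ho' : o ∈ V₁ ⊔ V₂ := by
      have e1 : o = (o + b) - b := by abel
      rw [e1]
      exact Submodule.sub_mem _ (Submodule.mem_sup_left hpV) (Submodule.mem_sup_right hb)
    have ho0 := (Submodule.disjoint_def.1 hOc.disjoint) o ho ho'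
    rw [ho0, zero_add] at hpV ⊢
    exact (Submodule.disjoint_def.1 h12) b hpV hb
  have hX₂ : Disjoint (O ⊔ V₁) V₂ := by
    rw [Submodule.disjoint_def]
    intro p hp hpV
    obtain ⟨o, ho, b, hb, rfl⟩ := Submodule.mem_sup.1 hp
    have ho' : o ∈ V₁ ⊔ V₂ := by
      have e1 : o = (o + b) - b := by abel
      rw [e1]
      exact Submodule.sub_mem _ (Submodule.mem_sup_right hpV) (Submodule.mem_sup_left hb)
    have ho0 := (Submodule.disjoint_def.1 hOc.disjoint) o ho ho'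
    rw [ho0, zero_add] at hpV ⊢
    exact (Submodule.disjoint_def.1 h12) b hb hpV
  have hR₁d : finrank (ZMod 2) R₁ + finrank (ZMod 2) D ≤ finrank (ZMod 2) R :=
    part_dim hX₁ hDR (hDO.trans le_sup_left)
  have hR₂d : finrank (ZMod 2) R₂ + finrank (ZMod 2) D ≤ finrank (ZMod 2) R :=
    part_dim hX₂ hDR (hDO.trans le_sup_left)
  set R' := D ⊔ (R₁ ⊔ R₂) with hR'
  have hR'd : finrank (ZMod 2) R' ≤ 2 * k := by
    have h1 : finrank (ZMod 2) R' ≤ finrank (ZMod 2) D + finrank (ZMod 2) ↥(R₁ ⊔ R₂) :=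
      Submodule.finrank_add_le_finrank_add_finrank _ _
    have h2 : finrank (ZMod 2) ↥(R₁ ⊔ R₂) ≤ finrank (ZMod 2) R₁ + finrank (ZMod 2) R₂ :=
      Submodule.finrank_add_le_finrank_add_finrank _ _
    omega
  refine ⟨R', hR'd, ?_⟩
  have h := prod_bound hQ hB h12 hOc.disjoint (by omega) (by omega)
    (Finset.univ.filter fun y : E => ∃ x ∈ cell R' z₀ ∩ S, ∀ φ ∈ V₁, φ y = φ x)
    (Finset.univ.filter fun y : E => ∃ x ∈ cell R' z₀ ∩ S, ∀ φ ∈ V₂, φ y = φ x)
    (by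
      intro x hx y hy
      rw [Finset.mem_filter] at hx ⊢
      obtain ⟨-, x', hx', hxx'⟩ := hx
      exact ⟨Finset.mem_univ _, x', hx', fun φ hφ => (hy φ hφ).trans (hxx' φ hφ)⟩)
    (by
      intro x hx y hy
      rw [Finset.mem_filter] at hx ⊢
      obtain ⟨-, x', hx', hxx'⟩ := hx
      exact ⟨Finset.mem_univ _, x', hx', fun φ hφ => (hy φ hφ).trans (hxx' φ hφ)⟩) z₀
    (by
      intro q hq1 hq2 hq
      rw [Finset.mem_filter] at hq1 hq2
      obtain ⟨-, x, hx, hqx⟩ := hq1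
      obtain ⟨-, y, hy, hqy⟩ := hq2
      rw [Finset.mem_inter] at hx hy
      obtain ⟨l₁, hl₁, hxl₁⟩ := hSv x hx.2
      obtain ⟨l₂, hl₂, hyl₂⟩ := hSw y hy.2
      have hqv : ∀ φ ∈ P.Post v, φ q = φ x := by
        intro φ hφ
        obtain ⟨a, ha, b, hb, rfl⟩ := Submodule.mem_sup.1 (hV₁s hφ)
        rw [LinearMap.add_apply, LinearMap.add_apply, hqx a ha, hq b (hDO hb),
          mem_cell.1 hx.1 b (Submodule.mem_sup_left hb)]
      have hqw : ∀ φ ∈ P.Post w, φ q = φ y := by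
        intro φ hφ
        obtain ⟨a, ha, b, hb, rfl⟩ := Submodule.mem_sup.1 (hV₂s hφ)
        rw [LinearMap.add_apply, LinearMap.add_apply, hqy a ha, hq b (hDO hb),
          mem_cell.1 hy.1 b (Submodule.mem_sup_left hb)]
      have hqR : ∀ φ ∈ R, φ q = φ z₀ := by
        intro φ hφ
        have h1 : φ ∈ O ⊔ (V₁ ⊔ V₂) := by
          rw [hOc.sup_eq_top]
          exact Submodule.mem_top
        obtain ⟨o, ho, s, hs, hos⟩ := Submodule.mem_sup.1 h1
        obtain ⟨a, ha, b, hb, hab⟩ := Submodule.mem_sup.1 hs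
        have ha' : a ∈ R₁ := by
          refine Submodule.mem_inf.2 ⟨?_, ha⟩
          have e1 : a = φ - (o + b) := by rw [← hos, ← hab]; abel
          rw [e1]
          exact Submodule.sub_mem _ (Submodule.mem_sup_left hφ)
            (Submodule.mem_sup_right (Submodule.add_mem_sup ho hb))
        have hb' : b ∈ R₂ := by
          refine Submodule.mem_inf.2 ⟨?_, hb⟩
          have e1 : b = φ - (o + a) := by rw [← hos, ← hab]; abel
          rw [e1]
          exact Submodule.sub_mem _ (Submodule.mem_sup_left hφ)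
            (Submodule.mem_sup_right (Submodule.add_mem_sup ho ha))
        rw [← hos, ← hab]
        simp only [LinearMap.add_apply]
        rw [hq o ho, hqx a ha, hqy b hb, mem_cell.1 hx.1 a
          (Submodule.mem_sup_right (Submodule.mem_sup_left ha')), mem_cell.1 hy.1 b
          (Submodule.mem_sup_right (Submodule.mem_sup_right hb'))]
      apply hacc
      obtain ⟨l₃, hl₃, h8⟩ := P.ctx_plug hc _ (FProg.Der.fork hf hl₁ hl₂)
      refine ⟨l₃, hl₃, fun q' hq' => ?_⟩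
      rcases h8 q' hq' with h9 | h9
      · refine passes_of_forms hzc (fun φ hφ => ?_) q' h9
        obtain ⟨a, ha, b, hb, rfl⟩ := Submodule.mem_sup.1 (hcG hφ)
        rw [LinearMap.add_apply, LinearMap.add_apply, hq a (hGO' ha), hqR b hb]
      · refine passes_append.2 ⟨?_, ?_⟩ q' h9
        · exact passes_of_forms hxl₁ fun φ hφ => hqv φ (P.forms_le_post hl₁ hφ)
        · exact passes_of_forms hyl₂ fun φ hφ => hqw φ (P.forms_le_post hl₂ hφ))
  refine le_trans ?_ h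
  apply mul_le_mul_of_nonneg_left _ (by positivity)
  have hsub : cell R' z₀ ∩ S ⊆
      (Finset.univ.filter fun y : E => ∃ x ∈ cell R' z₀ ∩ S, ∀ φ ∈ V₁, φ y = φ x) ∩
      (Finset.univ.filter fun y : E => ∃ x ∈ cell R' z₀ ∩ S, ∀ φ ∈ V₂, φ y = φ x) := by
    intro z hz
    rw [Finset.mem_inter, Finset.mem_filter, Finset.mem_filter]
    exact ⟨⟨Finset.mem_univ _, z, hz, fun _ _ => rfl⟩, Finset.mem_univ _, z, hz, fun _ _ => rfl⟩
  exact_mod_cast Finset.card_le_card hsub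

/-- From the cells to the set. -/
lemma cells_bound [FiniteDimensional (ZMod 2) E] [DecidableEq E] (S : Finset E) (κ C : ℕ)
    (h : ∀ z ∈ S, ∃ R' : Submodule (ZMod 2) (Dual (ZMod 2) E), finrank (ZMod 2) R' ≤ κ ∧
      2 ^ m * 2 ^ m * ((cell R' z ∩ S).card : ℝ) ≤ C * 2 ^ finrank (ZMod 2) E) :
    2 ^ m * 2 ^ m * (S.card : ℝ) ≤
      (∑ i ∈ Finset.range (κ + 1), (finrank (ZMod 2) E).choose i : ℕ) *
        (C * 2 ^ finrank (ZMod 2) E) := by
  classical
  choose! R' hR'1 hR'2 using h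
  obtain ⟨I, hIS, hI, hcov⟩ := cover S R' hR'1
  have hsubI : S ⊆ I.biUnion fun z => cell (R' z) z ∩ S := by
    intro x hx
    obtain ⟨z, hz, hxz⟩ := hcov x hx
    exact Finset.mem_biUnion.2 ⟨z, hz, Finset.mem_inter.2 ⟨hxz, hx⟩⟩
  have h1 : (S.card : ℝ) ≤ ∑ z ∈ I, ((cell (R' z) z ∩ S).card : ℝ) := by
    exact_mod_cast (Finset.card_le_card hsubI).trans Finset.card_biUnion_le
  have h2 : 2 ^ m * 2 ^ m * (S.card : ℝ) ≤
      ∑ _z ∈ I, (C * 2 ^ finrank (ZMod 2) E : ℝ) := by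
    refine (mul_le_mul_of_nonneg_left h1 (by positivity)).trans ?_
    rw [Finset.mul_sum]
    exact Finset.sum_le_sum fun z hz => hR'2 z (hIS hz)
  rw [Finset.sum_const, nsmul_eq_mul] at h2
  refine h2.trans (mul_le_mul_of_nonneg_right ?_ (by positivity))
  exact_mod_cast hI

/-- The lower bound. The program accepts only common zeros of the quadratic functions. -/
theorem lower_bot (hQ : ∀ j, IsQ (Q j) (B j)) {ρ : ℕ} (hm : 0 < m)
    (hB : ∀ μ : Fin m → ZMod 2, μ ≠ 0 → finrank (ZMod 2) (LinearMap.ker (Bm B μ)) ≤ ρ)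
    (k : ℕ) (hn : 38 * m + 11 * ρ + 18 * k ≤ finrank (ZMod 2) E + 3)
    (P : FProg E) (hacc : ∀ z, P.Acc z → ∀ j, Q j z = 0)
    [DecidablePred fun z : E => P.AccBot k z] :
    2 ^ m * 2 ^ m * ((Finset.univ.filter fun z : E => P.AccBot k z).card : ℝ) ≤
      3 * P.size ^ 2 * ((∑ i ∈ Finset.range (2 * k + 1), (finrank (ZMod 2) E).choose i : ℕ) *
        (4 * 2 ^ finrank (ZMod 2) E)) := by
  classical
  have : FiniteDimensional (ZMod 2) E := Module.Finite.of_finite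
  let _ := P.fin
  set n := finrank (ZMod 2) E with hn0
  set X := {z : E // P.AccBot k z} with hX
  have hkey : ∀ z : X, ∃ (q : Option (P.V ⊕ P.V × P.V))
      (R : Submodule (ZMod 2) (Dual (ZMod 2) E)), finrank (ZMod 2) R ≤ k ∧
      (q = none → P.IsLeaf z.1 R (4 * m + ρ + 2 * k)) ∧
      (∀ v, q = some (Sum.inl v) →
        P.IsNode z.1 R (4 * m + ρ + 2 * k) (ρ + 2 * m + 2 * k) v) ∧
      ∀ v w, q = some (Sum.inr (v, w)) →
        P.IsFork z.1 R (4 * m + ρ + 2 * k) (ρ + 2 * m + 2 * k) v w := by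
    intro z
    obtain ⟨R, hR, hz⟩ := z.2
    rcases P.cutB (A := 4 * m + ρ + 2 * k) (N := ρ + 2 * m + 2 * k) (by omega) (by omega) hz with
      h | ⟨v, h⟩ | ⟨v, w, h⟩
    · exact ⟨none, R, hR, fun _ => h, by simp, by simp⟩
    · refine ⟨some (Sum.inl v), R, hR, by simp, fun v' hv' => ?_, by simp⟩
      simp only [Option.some.injEq, Sum.inl.injEq] at hv'
      rwa [← hv']
    · refine ⟨some (Sum.inr (v, w)), R, hR, by simp, by simp, fun v' w' hv' => ?_⟩
      simp only [Option.some.injEq, Sum.inr.injEq, Prod.mk.injEq] at hv'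
      rwa [← hv'.1, ← hv'.2]
  choose key R hR hk1 hk2 hk3 using hkey
  set F : Option (P.V ⊕ P.V × P.V) → Finset E := fun q =>
    (Finset.univ.filter fun z : X => key z = q).image Subtype.val with hF
  have hsum : (Finset.univ.filter fun z : E => P.AccBot k z).card =
      ∑ q : Option (P.V ⊕ P.V × P.V), (F q).card := by
    rw [← Fintype.card_subtype, ← Finset.card_univ]
    rw [Finset.card_eq_sum_card_fiberwise (f := key) (t := Finset.univ)
      (fun _ _ => Finset.mem_univ _)]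
    refine Finset.sum_congr rfl fun k _ => ?_
    exact (Finset.card_image_of_injective _ Subtype.val_injective).symm
  have hmem : ∀ q, ∀ z ∈ F q, ∃ h : P.AccBot k z, key ⟨z, h⟩ = q := by
    intro q z hz
    obtain ⟨w, hw, rfl⟩ := Finset.mem_image.1 hz
    rw [Finset.mem_filter] at hw
    exact ⟨w.2, hw.2⟩
  have hbound : ∀ q, 2 ^ m * 2 ^ m * ((F q).card : ℝ) ≤
      (∑ i ∈ Finset.range (2 * k + 1), n.choose i : ℕ) * (4 * 2 ^ n) := by
    intro q
    have hF' : ∀ z ∈ F q, P.Acc z := fun z hz => by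
      obtain ⟨h, -⟩ := hmem q z hz
      exact P.accBot_acc h
    refine cells_bound (F q) (2 * k) 4 fun z hz => ?_
    obtain ⟨h, hq⟩ := hmem q z hz
    rcases q with _ | v | ⟨v, w⟩
    · exact leaf_cell hQ hB hn hm P hacc _ hF' z (hR ⟨z, h⟩) (hk1 ⟨z, h⟩ hq)
    · refine node_cell hQ hB P hacc v _ hF' (fun y hy => ?_) z (hR ⟨z, h⟩) (hk2 ⟨z, h⟩ v hq)
      obtain ⟨h', hq'⟩ := hmem _ y hy
      exact (hk2 ⟨y, h'⟩ v hq').1
    · refine fork_cell hQ hB hn P hacc v w _ (fun y hy => ?_) (fun y hy => ?_) z (hR ⟨z, h⟩)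
        (hk3 ⟨z, h⟩ v w hq)
      · obtain ⟨h', hq'⟩ := hmem _ y hy
        exact (hk3 ⟨y, h'⟩ v w hq').1
      · obtain ⟨h', hq'⟩ := hmem _ y hy
        exact (hk3 ⟨y, h'⟩ v w hq').2.1
  have hs : 1 ≤ Fintype.card P.V := Fintype.card_pos_iff.2 ⟨P.start⟩
  have hcard : Fintype.card (Option (P.V ⊕ P.V × P.V)) ≤ 3 * P.size ^ 2 := by
    rw [Fintype.card_option, Fintype.card_sum, Fintype.card_prod]
    have e : Fintype.card P.V = P.size := rfl
    rw [e] at hs ⊢
    nlinarith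
  rw [hsum]
  push_cast
  rw [Finset.mul_sum]
  have h1 := Finset.sum_le_sum fun q (_ : q ∈ Finset.univ) => hbound q
  rw [Finset.sum_const, nsmul_eq_mul, Finset.card_univ] at h1
  refine h1.trans ?_
  push_cast
  apply mul_le_mul_of_nonneg_right _ (by positivity)
  exact_mod_cast hcard

/-- A program which accepts only inputs with the property `CoeffZero` accepts a small part of them
with few redundancies (bottom version). -/
theorem one_sided_bot (t m k : ℕ) (hm : 0 < m) (ht : 29 * m + 9 * k ≤ t)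
    (P : FProg (Fin (t + m) ⊕ Fin (t + m) → ZMod 2)) (hacc : ∀ z, P.Acc z → CoeffZero t m z) :
    2 ^ m * Nat.card {z // P.AccBot k z} ≤
      24 * (∑ i ∈ Finset.range (2 * k + 1), (2 * (t + m)).choose i) * P.size ^ 2 *
        Nat.card {z // CoeffZero t m z} := by
  classical
  have hdim : finrank (ZMod 2) (Fin (t + m) ⊕ Fin (t + m) → ZMod 2) = 2 * (t + m) := by
    rw [Module.finrank_pi, Fintype.card_sum, Fintype.card_fin]
    omega
  have h1 := lower_bot (m := m) (Q := fun j => qn (n := t + m) (cn t j))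
    (B := fun j => Bn (cn t j)) (fun j => isQ_qn _) (ρ := 2 * m) hm (fun μ hμ => radicalN t μ hμ)
    k (by rw [hdim]; omega) P (fun z hz => (coeffZero_iff z).1 (hacc z hz))
  rw [hdim] at h1
  have e1 : Nat.card {z // P.AccBot k z} = (Finset.univ.filter fun z => P.AccBot k z).card := by
    rw [Nat.card_eq_fintype_card, Fintype.card_subtype]
  rw [← e1] at h1
  have h2 := card_coeffZero t m (by omega) hm
  have h3 : (0 : ℝ) < 2 ^ m := by positivity
  set b : ℕ := ∑ i ∈ Finset.range (2 * k + 1), (2 * (t + m)).choose i with hb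
  have h4 : (2 : ℝ) ^ m * ((2 : ℝ) ^ m * (Nat.card {z // P.AccBot k z} : ℝ)) ≤
      2 ^ m * (24 * b * P.size ^ 2 * (Nat.card {z // CoeffZero t m z} : ℝ)) := by
    have h5 : 12 * (b : ℝ) * (P.size : ℝ) ^ 2 * 2 ^ (2 * (t + m)) ≤
        12 * (b : ℝ) * (P.size : ℝ) ^ 2 *
          (2 * 2 ^ m * (Nat.card {z // CoeffZero t m z} : ℝ)) :=
      mul_le_mul_of_nonneg_left h2 (by positivity)
    calc (2 : ℝ) ^ m * ((2 : ℝ) ^ m * (Nat.card {z // P.AccBot k z} : ℝ))
        = 2 ^ m * 2 ^ m * (Nat.card {z // P.AccBot k z} : ℝ) := by ring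
      _ ≤ _ := h1
      _ = 12 * (b : ℝ) * (P.size : ℝ) ^ 2 * 2 ^ (2 * (t + m)) := by ring
      _ ≤ _ := h5
      _ = _ := by ring
  have h5 := le_of_mul_le_mul_left h4 h3
  exact_mod_cast h5

/-- In a decomposable program all accepting trees are decomposable. -/
theorem decomposable_accBot {E : Type} [AddCommGroup E] [Module (ZMod 2) E] (P : FProg E)
    (h : P.Decomposable) {z : E} (hz : P.Acc z) : P.AccBot 0 z := by
  have key : ∀ (v : P.V) (l : List (Dual (ZMod 2) E × ZMod 2)), P.Der v l → Passes z l →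
      P.TreeBot z ⊥ v := by
    intro v l hl
    induction hl with
    | final h => exact fun _ => FProg.TreeBot.final h
    | @edge u w lab l he hw ih =>
      intro hx
      obtain ⟨hx1, hx2⟩ := passes_append.1 hx
      refine FProg.TreeBot.edge he (fun t ht => ⟨passes_toList.1 hx1 t ht, fun h1 => ?_⟩) (ih hx2)
      subst ht
      exact absurd h1 (h.1 u w t.1 t.2 he ⟨l, hw⟩)
    | @fork u v w l₁ l₂ hf h1 h2 ih1 ih2 =>
      intro hx
      obtain ⟨hx1, hx2⟩ := passes_append.1 hx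
      exact FProg.TreeBot.fork hf (disjoint_iff_inf_le.1 (h.2 u v w hf)) (ih1 hx1) (ih2 hx2)
  obtain ⟨l, hl, hx⟩ := hz
  exact ⟨⊥, by rw [finrank_bot], key _ l hl hx⟩

end Pool.Agent.WRT
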