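import Pool.Agent.WRT.Lower
import Pool.Agent.WRT.LowerB

set_option autoImplicit false

/-!
# The bounds for the programs which compute the function
-/

namespace Pool.Agent.WRT

open Pool.Agent.WRL (CoeffZero coeffZero_iff qn)

lemma coeffZero_pos (t m : ℕ) : 0 < Nat.card {z // CoeffZero t m z} := by
  classical
  have : Nonempty {z // CoeffZero t m z} := by
    refine ⟨⟨0, ?_⟩⟩
    rw [coeffZero_iff]
    intro j
    simp [qn]
  exact Nat.card_pos

/-- The bottom version. -/
theorem exact_bot (t m k : ℕ) (hm : 0 < m) (ht : 29 * m + 9 * k ≤ t)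
    (P : FProg (Fin (t + m) ⊕ Fin (t + m) → ZMod 2)) (hacc : ∀ z, P.Acc z ↔ CoeffZero t m z)
    (hb : ∀ z, P.Acc z → P.AccBot k z) :
    2 ^ m ≤ 24 * (∑ i ∈ Finset.range (2 * k + 1), (2 * (t + m)).choose i) * P.size ^ 2 := by
  classical
  have h1 := one_sided_bot t m k hm ht P fun z hz => (hacc z).1 hz
  have h2 : Nat.card {z // CoeffZero t m z} ≤ Nat.card {z // P.AccBot k z} := by
    simp only [Nat.card_eq_fintype_card]
    exact Fintype.card_subtype_mono _ _ fun z hz => hb z ((hacc z).2 hz)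
  exact Nat.le_of_mul_le_mul_right ((Nat.mul_le_mul_left _ h2).trans h1) (coeffZero_pos t m)

end Pool.Agent.WRT
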